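import Pool.Agent.MP_a2d820_lc.h31w.All

/-!
Every language of a level is a unique-witness projection of the complement of a language one level
down.
-/

set_option autoImplicit false

namespace Pool.Agent.MP_a2d820_lc.h31w

open Finset Pool.Agent.MP_a2d820_lc.h69 Pool.Agent.MP_a2d820_lc.h31u Pool.Agent.PolyT
  Pool.Agent.H82 N487b59b3 Function
open Pool.Agent.MP_a2d820_lc.h70 (Tw)
open Pool.Agent.MP_a2d820_lc.h22 (RelUP)
open Pool.Agent.MP_a2d820_lc.h31p (nw rowOf)
open Pool.Agent.MP_a2d820_lc.h22p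
open Pool.Agent.MP_a2d820_lc.h22v (inp length_inp)
open Pool.Agent.MP_a2d820_lc.h22q

theorem one_query_or {Q : List Bool → List Bool} {g : List Bool → Bool} (hQ : PolyT.Poly Q)
    (hg : PolyT.Poly g) (s : Bool) (O : Lang) : (fun x => g x || xor s (O (Q x))) ∈ RelP O := by
  obtain ⟨M, hM⟩ := exists_om (ini := fun x => (x, [], [])) (Q := fun c => Q c.1)
    (δ := fun p => p.1) (fin := fun _ => true) (out := fun p => g p.1.1 || xor s p.2)
    (by fun_prop) (by fun_prop) (by fun_prop) (by fun_prop) (by fun_prop)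
  refine ⟨M, 6 * Polynomial.X + 4, fun x => ⟨1, by simp, ?_⟩⟩
  exact hM O x 0 _ (fun _ => (x, [], [])) rfl (by simp) (by simp) rfl
    (fun _ _ => by simp [length_st]) (by simp; omega)

theorem gw_or (A : Lang) (i : ℕ) {Q : List Bool → List Bool} {g : List Bool → Bool}
    (hQ : PolyT.Poly Q) (hg : PolyT.Poly g) :
    (fun d => g d || gw A i (Q d)) ∈ RelSigma A i := by
  have hrow : PolyT.Poly row := by unfold row; fun_prop
  rcases i with _ | i
  · have := one_query_or (Q := fun c => ad (row (Q c)) (third (sel false (Q c))) 0) (by fun_prop)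
      hg false A
    simp only [Bool.false_xor] at this
    exact this
  let J : List Bool → List Bool := fun c =>
    let j := third (sel false (Q c))
    j ++ j ++ j ++ j ++ j ++ j ++ j ++ j
  have hJ : PolyT.Poly J := by fun_prop
  have e : ∀ c, (J c).length = 8 * (third (sel false (Q c))).length := fun c => by
    simp only [J, List.length_append]
    omega
  obtain ⟨p, hp⟩ := hJ.bd
  refine ⟨_, gw_mem A i, p.comp (3 * Polynomial.X), _, one_query_or (Q := fun d => true :: bitEncode
    (row (Q (sel true d)), (sel false d ++ J (sel true d)).take (J (sel true d)).length ++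
      third (sel false (Q (sel true d))))) (g := fun d => g (sel true d)) (by fun_prop)
    (by fun_prop) true _, fun c => ?_⟩
  simp only [sel_pair, if_true, join, gw_enc, Bool.true_xor, Bool.not_eq_true',
    Bool.false_eq_true, if_false, Bool.or_eq_true]
  simp only [gw, nw, decide_eq_true_eq]
  constructor
  · rintro (h | ⟨w, hw, h⟩)
    · exact ⟨[], Nat.zero_le _, Or.inl h⟩
    have := hp c
    simp only [PolyT.Poly.enc_bools_length] at this
    rw [← e] at hw
    refine ⟨w, ?_, Or.inr (by rwa [List.take_left' hw])⟩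
    simp only [Polynomial.eval_comp, Polynomial.eval_mul, Polynomial.eval_ofNat,
      Polynomial.eval_X]
    omega
  · rintro ⟨w, -, h | h⟩
    · exact Or.inl h
    · exact Or.inr ⟨_, by rw [← e]; simp, h⟩

theorem au_mem {A L : Lang} {k : ℕ} {U : List Bool → List Bool} (hU : PolyT.Poly U)
    (h : ∀ x, Rt k (rowOf A (U x)) (rt (U x).length 0) (L x)) :
    ∃ p : Polynomial ℕ, ∃ C ∈ RelSigma A k,
      (∀ x, L x = true ↔
        ∃ w : List Bool, w.length ≤ p.eval x.length ∧ C (delimit x ++ w) = false) ∧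
      ∀ x w w' : List Bool, w.length ≤ p.eval x.length → w'.length ≤ p.eval x.length →
        C (delimit x ++ w) = false → C (delimit x ++ w') = false → w = w' := by
  obtain ⟨p, hp⟩ := hU.bd
  have e : ∀ x w : List Bool, ((!eqB w.length (8 * (U x).length)) ||
      gw A k (bitEncode (U x, w ++ dig (U x) 0))) = false ↔
      w.length = 8 * (U x).length ∧ nw k (rowOf A (U x)) (w ++ rt (U x).length 0) = false := by
    intro x w
    rw [gw_enc, dig_eq]
    simp
  refine ⟨8 * p.comp (3 * Polynomial.X), _, gw_or A k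
    (Q := fun d => bitEncode (U (sel true d), sel false d ++ dig (U (sel true d)) 0))
    (g := fun d => !eqB (sel false d).length (8 * (U (sel true d)).length))
    (by unfold dig; fun_prop) (by fun_prop), fun x => ?_, fun x w w' _ _ => ?_⟩
  · simp only [sel_pair, if_true, Bool.false_eq_true, if_false, e]
    rw [← (h x).1]
    simp only [nw, decide_eq_true_eq, length_rt]
    refine exists_congr fun w => (and_iff_right_of_imp fun a => ?_).symm
    have := hp x
    simp only [PolyT.Poly.enc_bools_length] at this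
    simp only [Polynomial.eval_comp, Polynomial.eval_mul, Polynomial.eval_ofNat,
      Polynomial.eval_X]
    omega
  · simp only [sel_pair, if_true, Bool.false_eq_true, if_false, e]
    exact fun a b => (h x).2 w w' (by rw [length_rt]; exact a.1) (by rw [length_rt]; exact b.1)
      a.2 b.2

theorem final_au {c : ℕ → ℕ} (hc : DiagU c) : ∃ A : Lang, RelNP A = RelUP A ∧
    (∀ k, ∀ L ∈ RelSigma A (k + 1), ∃ p : Polynomial ℕ, ∃ C ∈ RelSigma A k,
      (∀ x, L x = true ↔
        ∃ w : List Bool, w.length ≤ p.eval x.length ∧ C (delimit x ++ w) = false) ∧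
      ∀ x w w' : List Bool, w.length ≤ p.eval x.length → w'.length ≤ p.eval x.length →
        C (delimit x ++ w) = false → C (delimit x ++ w') = false → w = w') ∧
    (∀ k, ∃ L ∈ RelSigma A (k + 1), L ∉ RelSigma A k) ∧
    ∃ L ∈ RelPSPACE A, ∀ k, L ∉ RelSigma A k := by
  obtain ⟨τ, hτ⟩ := exists_surjective_nat (Tw × Tw)
  obtain ⟨π, hπ⟩ := exists_surjective_nat (ℕ ⊕ Bool × Tw)
  let g : ℕ ⊕ Bool × Tw → {P // Frc c τ P} :=
    Sum.elim (fun i => ⟨_, frc_code i⟩)
      fun y => ⟨_, frc_diag hc y.2 (inp y.1 y.2.2.length) _ (length_inp _ _)⟩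
  obtain ⟨A, hA⟩ := exists_lim (fun n => (g (π n)).1) fun n => (g (π n)).2
  have key : ∀ (k : ℕ) (L : Lang) (s : Bool), L ∈ RelSigma A k → ∃ n, 1 ≤ n ∧ L (inp s k n) ≠
      nw (k + 1) (rowOf A (List.replicate n false)) (rt n 0) := by
    intro k L s hL
    obtain ⟨b, l, rfl, rfl⟩ := exists_ev' hL
    obtain ⟨n, hn⟩ := hπ (Sum.inr (s, b, l))
    have := hA n
    rw [hn] at this
    exact this
  have code : ∀ k, ∀ L ∈ RelSigma A (k + 1), ∃ U, PolyT.Poly U ∧ ∀ x,
      Rt k (rowOf A (U x)) (rt (U x).length 0) (L x) := by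
    intro k L h
    obtain ⟨b, l, e, rfl⟩ := exists_ev' h
    obtain ⟨i, hi⟩ := hτ ((b, l), (b, l))
    obtain ⟨n, hn⟩ := hπ (Sum.inl i)
    have := hA n
    rw [hn] at this
    simp only [g, Sum.elim_inl, hi] at this
    exact this k e e
  have hrow : PolyT.Poly row := by unfold row; fun_prop
  refine ⟨A, Set.Subset.antisymm (fun L ⟨p, R, h1, h2⟩ => ?_)
    fun L ⟨p, R, h1, h2, _⟩ => ⟨p, R, h1, h2⟩, fun k L h => ?_,
    fun k => ⟨_, gw_mem A (k + 1), fun h => ?_⟩, _, ga_mem A, fun k h => ?_⟩
  · obtain ⟨U, u1, u2⟩ := code 0 L ⟨R, h1, p, R, relP_join R h1, h2⟩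
    exact up_mem (φ := fun c => ad (row c) (third (sel false c)) 0) (by fun_prop)
      (fun _ => rfl) u1 u2
  · obtain ⟨U, u1, u2⟩ := code k L h
    exact au_mem u1 u2
  · obtain ⟨n, -, hn⟩ := key k _ false h
    exact hn (by rw [inp, cond_false, gw_enc])
  · obtain ⟨n, h1, hn⟩ := key k _ true h
    exact hn (by
      rw [inp, cond_true, ga_enc, ← tv_mw _ _ _ (by rwa [length_rt]), length_rt]
      rfl)

theorem diag_all : ∃ c, DiagU c :=
  diagU (coreS (baseS forS) (stepS round_all fixS pullS forS (keyS forS)) forS)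

end Pool.Agent.MP_a2d820_lc.h31w
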