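import Pool.Agent.MP_a2d820_lc.h31w.Spec
import Pool.Agent.MP_a2d820_lc.h9.FillU

/-!
The core of a stage: all rounds, then the rows of higher level.
-/

set_option autoImplicit false

namespace Pool.Agent.MP_a2d820_lc.h31w

open Finset Pool.Agent.MP_a2d820_lc.h69
open Pool.Agent.MP_a2d820_lc.h31p (Env)
open Pool.Agent.MP_a2d820_lc.h22p (rt)

theorem co_inv (hB : BaseStmt) (hS : StepStmt) {E : Env} (hE : Ok E) (h : ℕ) (hh : h ≤ E.d) :
    ∃ b σ, Inv E h b σ := by
  induction h with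
  | zero => exact hB E hE
  | succ h ih =>
    obtain ⟨b, σ, h1⟩ := ih (by omega)
    exact hS E hE h (by omega) b σ h1

theorem coreS (hB : BaseStmt) (hS : StepStmt) (hF : ForStmt) : CoreStmt := by
  intro E hE f hf
  obtain ⟨b, σ, hI⟩ := co_inv hB hS hE E.d le_rfl
  obtain ⟨hx, hl⟩ := hE.hx
  obtain ⟨y, hy, h1⟩ := h9u.lastU E E.d _ b univ σ E.mu E.x f
    (fun u hu => (hE.len u hu).2.2.2.2.2)
    (fun u hu A A' hA => hE.loc u hu A A' fun s hs => hA s (by
      have a1 := (hE.len u hu).2.2.1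
      have a2 : E.rl u ≤ 9 ^ E.lv u * E.rl u := Nat.le_mul_of_pos_left _ (by positivity)
      omega))
    hI.hgt (hI.gate E.x hx (by omega) f hf) (fun π a1 a2 => by
      have a3 : π ∈ E.Pa E.d 0 := mem_filter.2 ⟨mem_univ _, a1, a2, by omega⟩
      have a4 := hI.fat π a3
      have a5 := ((hF E hE).2.2.2 E.d).2 π a3
      have a6 := hE.hQ
      rw [pow_zero, mul_one] at a4
      omega)
  refine ⟨σ y, hI.agl y hy, fun v hv hvx => ?_, ?_⟩
  · rcases le_or_gt (E.lv v) E.d with a1 | a1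
    · exact hI.code y hy v hv a1
    · obtain ⟨a2, -, a3⟩ := h1 v hv a1 (rt (E.rl v) 0) (h22p.length_rt _ _)
      exact ⟨by rw [Nat.sub_add_cancel (by omega)]; exact a2 hvx, a3⟩
  · rw [← hl]
    exact (h1 E.x hx (by omega) _ (h22p.length_rt _ _)).2.1 rfl

end Pool.Agent.MP_a2d820_lc.h31w
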