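import Pool.Agent.MP_a2d820_lc.h31w.Spec
import Pool.Agent.MP_a2d820_lc.h22q.V

/-!
The data of a stage, built from the active rows and the machine that is to be defeated.
-/

set_option autoImplicit false

namespace Pool.Agent.MP_a2d820_lc.h31w

open Finset Pool.Agent.MP_a2d820_lc.h69 Pool.Agent.MP_a2d820_lc.h31u
open Pool.Agent.MP_a2d820_lc.h31p (nw rowOf Env)
open Pool.Agent.MP_a2d820_lc.h70 (Agl Ac)
open Pool.Agent.MP_a2d820_lc.h22p (rt)
open Pool.Agent.MP_a2d820_lc.h22q (Rt LgU DiagU lgU completeU)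

theorem di_lw {r k : ℕ} {a : Lang} {c : Bool} : Lw r k a c ↔ Rt k a (rt r 0) c := by
  simp only [Lw, Rt, h22p.length_rt]

theorem di_zs (h : ℕ) : ∃ P : Polynomial ℕ, ∀ T L, T < 2 ^ L → zs T L h ≤ 2 ^ P.eval L := by
  induction h with
  | zero => exact ⟨Polynomial.X, fun T L h => by simpa [zs] using h.le⟩
  | succ h ih =>
    obtain ⟨P, hP⟩ := ih
    refine ⟨P + (Polynomial.X + P + 5) * (3 * (Polynomial.X + 3) ^ 3), fun T L hT => ?_⟩
    have a1 := hP T L hT
    have a2 : T * zs T L h ≤ 2 ^ (L + P.eval L) := by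
      rw [pow_add]
      exact Nat.mul_le_mul hT.le a1
    have a3 : 2 ^ L ≤ 2 ^ (L + P.eval L) := Nat.pow_le_pow_right two_pos (Nat.le_add_right _ _)
    have a4 : L < 2 ^ L := Nat.lt_two_pow_self
    have a5 : 4 * T + L + 2 * (T * zs T L h) + 12 ≤ 2 ^ (L + P.eval L + 5) := by
      rw [pow_add _ _ 5]
      omega
    simp only [Polynomial.eval_add, Polynomial.eval_mul, Polynomial.eval_X, Polynomial.eval_pow,
      Polynomial.eval_ofNat]
    rw [zs, zr, pow_add, pow_mul 2 (L + P.eval L + 5)]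
    exact Nat.mul_le_mul a1 (Nat.pow_le_pow_left a5 _)

theorem di_num (j e d : ℕ) : ∀ᶠ n in Filter.atTop, ∃ L, 9 ^ j * n ^ (e + 2) < 2 ^ L ∧
    zs (9 ^ j * n ^ (e + 2)) L d ^ (L + 1) ≤ 2 ^ n := by
  obtain ⟨P, hP⟩ := di_zs d
  obtain ⟨l, hl⟩ := Filter.eventually_atTop.1 (poly_le_two_pow ((P * (Polynomial.X + 1)).comp
    (4 * (j : Polynomial ℕ) + (Polynomial.X + 1) * ((e : Polynomial ℕ) + 2))) 1 one_pos)
  filter_upwards [Filter.eventually_ge_atTop (2 ^ l)] with n hn
  have h0 : n ≠ 0 := by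
    have : 0 < 2 ^ l := by positivity
    omega
  have h1 := hl (Nat.log 2 n) (Nat.le_log_of_pow_le (by norm_num) hn)
  simp only [Polynomial.eval_comp, Polynomial.eval_add, Polynomial.eval_mul, Polynomial.eval_X,
    Polynomial.eval_ofNat, Polynomial.eval_natCast, Polynomial.eval_one, Nat.cast_id,
    Nat.div_one] at h1
  have h2 : 9 ^ j * n ^ (e + 2) < 2 ^ (4 * j + (Nat.log 2 n + 1) * (e + 2)) := by
    rw [pow_add 2, pow_mul, pow_mul]
    exact Nat.mul_lt_mul_of_le_of_lt (Nat.pow_le_pow_left (by norm_num) _)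
      (Nat.pow_lt_pow_left (Nat.lt_pow_succ_log_self (by norm_num) n) (by omega)) (by positivity)
  refine ⟨_, h2, (Nat.pow_le_pow_left (hP _ _ h2) _).trans ?_⟩
  rw [← pow_mul]
  exact Nat.pow_le_pow_right two_pos (h1.trans (Nat.pow_log_le_self 2 h0))

theorem di_tower {w N k : ℕ} {F : Finset (Lang → Bool)} (h : AC w N k (F : Set (Lang → Bool)))
    (hF : F.card ≤ N) : ∃ G : ℕ → Finset (Lang → Bool), G k = F ∧ (∀ i, (G i).card ≤ N) ∧
      (∀ g ∈ G 0, DT w g) ∧
      ∀ i < k, ∀ g ∈ G (i + 1), IsOr ((G i : Set _) ∪ {g | DT 1 g}) w g := by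
  induction k generalizing F with
  | zero => exact ⟨fun _ => F, rfl, fun _ => hF, h, fun _ h => absurd h (by omega)⟩
  | succ k ih =>
    obtain ⟨G₀, h1, h2, h3⟩ := h
    obtain ⟨G, rfl, a2, a3, a4⟩ := ih h2 h1
    refine ⟨fun i => if i = k + 1 then F else G i, if_pos rfl, fun i => ?_, a3, fun i hi => ?_⟩
    · dsimp only
      split_ifs
      exacts [hF, a2 i]
    · simp only [if_neg hi.ne]
      split_ifs with e
      · obtain rfl : i = k := by omega
        exact h3
      · exact a4 i (by omega)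

theorem di_tow {w m k : ℕ} (hm : w ≤ m) {f : Lang → Bool} (hf : f ∈ Ac w k) :
    ∃ G : ℕ → Finset (Lang → Bool), f ∈ G k ∧ (∀ i, (G i).card ≤ 2 ^ m) ∧ (∀ g ∈ G 0, DT m g) ∧
      ∀ i < k, ∀ g ∈ G (i + 1), IsOr ((G i : Set _) ∪ {g | DT 1 g}) m g := by
  obtain ⟨G, a1, a2, a3, a4⟩ := di_tower (F := {f}) (by rw [coe_singleton]; exact hf)
    (by simpa using Nat.one_le_two_pow)
  exact ⟨G, by simp [a1], fun i => (a2 i).trans (Nat.pow_le_pow_right two_pos hm),
    fun g hg => (a3 g hg).mono hm, fun i hi g hg => isOr_mono (a4 i hi g hg) subset_rfl hm⟩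

theorem diagU (h : CoreStmt) : ∃ c, DiagU c := by
  classical
  refine ⟨fun _ => 2, fun K d e => ?_⟩
  filter_upwards [di_num (K + d + 1) e d,
    poly_le_two_pow (2 * (9 ^ (K + d + 1) * Polynomial.X ^ (e + 2)) + 3) 1 one_pos,
    Filter.eventually_ge_atTop 2] with n ⟨L, e1, e2⟩ e3 e4 lv β mu nu Act A₀ f hS _ hA₀ hx hf hloc
  simp only [Polynomial.eval_mul, Polynomial.eval_pow, Polynomial.eval_add, Polynomial.eval_X,
    Polynomial.eval_ofNat, Nat.div_one] at e3
  set M := n ^ (e + 2) with hM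
  set T := 9 ^ (K + d + 1) * M with hT
  have t1 : n ^ e ≤ M := Nat.pow_le_pow_right (by omega) (by omega)
  have t2 : n < M := (pow_one n).ge.trans_lt (Nat.pow_lt_pow_right (by omega) (by omega))
  have t3 : M ≤ T := Nat.le_mul_of_pos_left _ (by positivity)
  set x := List.replicate n false with hxd
  have lx : x.length = n := by simp [hxd]
  let W : Finset (List Bool) := (lists M).filter fun u => u ∈ Act ∧ n ≤ u.length ∧ u.length < M
  have hW : ∀ u, u ∈ W ↔ u ∈ Act ∧ n ≤ u.length ∧ u.length < M := fun u =>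
    mem_filter.trans (and_iff_right_of_imp fun h => mem_lists.2 h.2.2.le)
  have xW : x ∉ W := fun h => hx ((hW x).1 h).1
  have hm : ∀ u ∈ W, 2 * β u ≤ u.length ∧ β u ≤ T := fun u hu => by
    obtain ⟨a1, -, a2⟩ := (hW u).1 hu
    obtain ⟨a3, a4, a5, -⟩ := (hS u a1).1
    exact ⟨(Nat.mul_le_mul_right _ a3).trans ((pow_two _).symm.trans_le a5), by omega⟩
  choose! G g1 g2 g3 g4 using fun u (hu : u ∈ W) => di_tow (hm u hu).2
    (hS u ((hW u).1 hu).1).1.2.2.2.1
  obtain ⟨Gx, o1, o2, o3, o4⟩ := di_tow (t1.trans t3) hf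
  let E : Env := ⟨insert x W, fun u => if u ∈ W then lv u + 1 else d + 1, List.length,
    fun u => if u ∈ W then β u else 0, fun _ => 0,
    fun u => if u ∈ W then mu u else fun _ => false, fun _ _ => false,
    fun u => if u ∈ W then G u else Gx, A₀, x, n, n, d, L, zs T L d, T⟩
  have hI : ∀ u ∈ E.I, u = x ∨ u ∈ W := fun u hu => mem_insert.1 hu
  have vW : ∀ u ∈ W, E.lv u = lv u + 1 ∧ E.m u = β u ∧ E.mu u = mu u ∧ E.G u = G u :=
    fun u hu => by simp [E, hu]
  have vx : E.lv x = d + 1 ∧ E.m x = 0 ∧ (E.mu x = fun _ => false) ∧ E.G x = Gx := by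
    simp [E, xW]
  have hOk : Ok E := by
    refine ⟨fun u hu => ?_, fun u hu => ?_, fun u hu i a1 a2 => ?_, fun u hu i => ?_,
      fun u hu a1 => ?_, fun u hu => ?_, show 1 ≤ n by omega, e1, le_rfl, e2, e3,
      mem_insert_self _ _, vx.1⟩
    · change n ≤ u.length ∧ n ≤ u.length ∧ 2 * E.m u ≤ u.length ∧ u.length ≤ u.length ∧
        1 ≤ E.lv u ∧ 9 ^ E.lv u * u.length ≤ T
      rcases hI u hu with rfl | h'
      · rw [vx.1, vx.2.1, lx]
        exact ⟨le_rfl, le_rfl, by omega, le_rfl, by omega,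
          Nat.mul_le_mul (Nat.pow_le_pow_right (by omega) (by omega)) t2.le⟩
      · obtain ⟨a1, a2, a3⟩ := (hW u).1 h'
        have a4 := (hS u a1).2
        rw [(vW u h').1, (vW u h').2.1]
        exact ⟨a2, a2, (hm u h').1, le_rfl, by omega,
          Nat.mul_le_mul (Nat.pow_le_pow_right (by omega) (by omega)) a3.le⟩
    · rcases hI u hu with rfl | h'
      · rw [vx.2.2.2]
        exact o3
      · rw [(vW u h').2.2.2]
        exact g3 u h'
    · rcases hI u hu with rfl | h'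
      · rw [vx.2.2.2]
        exact o4 i a2
      · rw [(vW u h').1] at a1
        rw [(vW u h').2.2.2]
        exact g4 u h' i a1
    · rcases hI u hu with rfl | h'
      · rw [vx.2.2.2]
        exact o2 i
      · rw [(vW u h').2.2.2]
        exact g2 u h' i
    · rcases hI u hu with rfl | h'
      · rw [vx.1] at a1
        exact absurd a1 (Nat.not_succ_le_self d)
      · rw [(vW u h').1, (vW u h').2.2.1, (vW u h').2.2.2]
        exact g1 u h'
    · rcases hI u hu with rfl | h'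
      · rw [vx.2.2.1]
        exact fun _ _ _ => rfl
      · rw [(vW u h').2.1, (vW u h').2.2.1]
        exact fun A A' h => ((hS u ((hW u).1 h').1).1.2.2.2.2.2 A A' h).1
  obtain ⟨A, a1, a2, a3⟩ := h E hOk f (by rw [show E.G E.x = Gx from vx.2.2.2]; exact o1)
  obtain ⟨A', b1, b2⟩ := completeU (fun u hu => (hS u hu).1) A M fun v hv => by
    by_cases a4 : v.length < n
    · exact lgU (hS v hv.1).1 a4 a1 (hA₀ v hv.1)
    · have a5 := (hW v).2 ⟨hv.1, by omega, hv.2⟩
      have a6 := a2 v (mem_insert_of_mem a5) fun e : v = x => xW (e ▸ a5)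
      rw [Leg, (vW v a5).1, (vW v a5).2.2.1] at a6
      exact di_lw.1 a6
  rw [show E.rl E.x = n from lx] at a3
  refine ⟨A', fun s hs => (a1 s hs).trans (b1 s (hs.trans t2)), b2, ?_⟩
  rwa [← hloc A A' fun v hv => b1 v ((lev_le v).trans_lt (by omega)),
    ← show rowOf A x = rowOf A' x from funext fun j => b1 _ (by rw [lev_ad]; omega)]

theorem mainS (h : CoreStmt) : MainStmt :=
  let ⟨_, hc⟩ := diagU h
  h22q.final hc

end Pool.Agent.MP_a2d820_lc.h31w
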