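import Pool.Agent.MP_a2d820_lc.h31w.Spec
import Pool.Agent.MP_a2d820_lc.h31p.For

/-!
Counting facts about the forest.
-/

set_option autoImplicit false

namespace Pool.Agent.MP_a2d820_lc.h31w

open Finset Pool.Agent.MP_a2d820_lc.h69
open Pool.Agent.MP_a2d820_lc.h31p (Fat Env)
open Pool.Agent.MP_a2d820_lc.h31p.For (card_ch ch_sub)

theorem fo_rl {E : Env} {h : ℕ} {π : E.Nd} (hπ : π ∈ E.Pa h 0) : E.rl π.1 ≤ π.2.1.length := by
  obtain ⟨-, -, h2, -⟩ := mem_filter.1 hπ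
  rw [h2]
  exact Nat.le_mul_of_pos_left _ (by positivity)

theorem fo_I {E : Env} (hE : Ok E) : E.I.card < 2 ^ (E.T + 1) := by
  refine (card_le_card fun u hu => mem_lists.2 ?_).trans_lt (card_lists E.T)
  obtain ⟨-, -, -, a1, -, a2⟩ := hE.len u hu
  exact a1.trans ((Nat.le_mul_of_pos_left _ (by positivity)).trans a2)

theorem fo_Nd {E : Env} (hE : Ok E) : Fintype.card E.Nd < 2 ^ (2 * E.T + 2) := by
  rw [Fintype.card_prod, Fintype.card_coe, show 2 * E.T + 2 = E.T + 1 + (E.T + 1) by ring, pow_add]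
  exact Nat.mul_lt_mul'' (fo_I hE) (card_node _)

theorem fo_log {E : Env} (hE : Ok E) (h l : ℕ) (hl : 1 ≤ l) :
    #{π' ∈ E.Pa h 0 | Nat.log 2 π'.2.1.length = Nat.log 2 l} ≤ 2 ^ (2 * l) * 2 ^ (2 * l) := by
  have c := (card_lists (2 * l - 1)).le
  rw [show 2 * l - 1 + 1 = 2 * l by omega] at c
  refine le_trans (card_le_card_of_injOn (t := lists (2 * l - 1) ×ˢ lists (2 * l - 1))
    (fun v => (v.1.1, v.2.1)) (fun v hv => ?_) fun v _ v' _ e => ?_)
    ((card_product _ _).le.trans (Nat.mul_le_mul c c))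
  · obtain ⟨a1, a2⟩ := mem_filter.1 (mem_coe.1 hv)
    have a3 := Nat.lt_pow_succ_log_self one_lt_two v.2.1.length
    have a4 := Nat.pow_log_le_self 2 (show l ≠ 0 by omega)
    have a5 := fo_rl a1
    have a6 := (hE.len _ v.1.2).2.2.2.1
    rw [a2, pow_succ] at a3
    exact mem_coe.2 (mem_product.2 ⟨mem_lists.2 (by simp only; omega),
      mem_lists.2 (by simp only; omega)⟩)
  · exact Prod.ext (Subtype.ext (congrArg Prod.fst e)) (Subtype.ext (congrArg Prod.snd e))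

theorem forS : ForStmt := by
  intro E hE
  have ha : ∀ h, ∀ π ∈ E.Pa h 0, E.a ≤ π.2.1.length := fun h π hπ =>
    (hE.len _ π.1.2).2.1.trans (fo_rl hπ)
  refine ⟨fo_Nd hE, fo_I hE, fun π π' v h1 h2 => ?_, fun h => ⟨fun π hπ => ?_, fun π hπ => ?_⟩⟩
  · obtain ⟨-, h3, h4, h5⟩ := mem_filter.1 h1
    obtain ⟨-, h6, h7, h8⟩ := mem_filter.1 h2
    refine Prod.ext (h3.symm.trans h6) (Subtype.ext ?_)
    rw [← h5, ← h8, show π.2.1.length = π'.2.1.length by omega]
  · rw [sdiff_compl, inf_eq_inter, inter_eq_left.2 (ch_sub E hπ)]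
    have h2 := ha h π hπ
    obtain ⟨-, h3, h4, -⟩ := mem_filter.1 hπ
    refine le_trans ?_ (card_ch E π ?_)
    · calc E.ft π * E.Q ^ (E.L + 1) ≤ 2 ^ (7 * π.2.1.length) * 2 ^ π.2.1.length :=
            Nat.mul_le_mul_left _ (hE.pow.trans (Nat.pow_le_pow_right two_pos h2))
        _ = 2 ^ (8 * π.2.1.length) := by ring
    · refine le_trans ?_ (hE.len _ π.1.2).2.2.2.2.2
      rw [h4, ← mul_assoc, ← pow_succ']
      exact Nat.mul_le_mul_right _ (Nat.pow_le_pow_right (by norm_num) (by omega))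
  · have h2 := ha h π hπ
    have h1 := hE.ha.trans h2
    have hQ : E.Q ≤ 2 ^ π.2.1.length := (Nat.le_self_pow (Nat.succ_ne_zero _) _).trans
      (hE.pow.trans (Nat.pow_le_pow_right two_pos h2))
    refine ⟨?_, hQ.trans_lt (Nat.pow_lt_pow_right one_lt_two (by omega)), h1, ?_, ?_⟩
    · have h3 : 2 * E.T + 3 ≤ E.ft π := hE.hT.trans (Nat.pow_le_pow_right two_pos (by omega))
      refine le_trans ?_ (Nat.pow_le_pow_right two_pos h3)
      rw [pow_succ']
      exact Nat.mul_le_mul_left _ ((card_le_univ _).trans (fo_Nd hE).le)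
    · rw [(mem_filter.1 hπ).2.2.1]
      exact Nat.mul_le_mul_right _ (Nat.pow_le_pow_right (by norm_num) (by omega))
    · refine (Nat.mul_le_mul hQ (fo_log hE h _ h1)).trans ?_
      rw [← pow_add, ← pow_add]
      exact Nat.pow_le_pow_right two_pos (by omega)

end Pool.Agent.MP_a2d820_lc.h31w
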