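import Pool.Agent.MP_a2d820_lc.h31w.Spec

/-!
Guards of the targets of a system of regions, and definitions by recursion on a level.
-/

set_option autoImplicit false

namespace Pool.Agent.MP_a2d820_lc.h31w

open Finset Pool.Agent.MP_a2d820_lc.h69
open Pool.Agent.MP_a2d820_lc.h31u (Ct Live Chain)
open Pool.Agent.MP_a2d820_lc.h31p (Pr One Cert Fat Agr pt nw rowOf Loc Env)
open Pool.Agent.MP_a2d820_lc.h70 (Agl Ac)
open Pool.Agent.MP_a2d820_lc.h22p (rt gw)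
open Pool.Agent.MP_a2d820_lc.h22 (RelUP)

section Guard

variable {ι τ : Type} {Key : ι → Type} {Fr Rel : Finset ι} {lev : ι → ℕ}
  {On : Finset ι → (∀ R, Key R) → Finset ι} {A : τ → Finset ι → (∀ R, Key R) → Prop}
  {tl : τ → ℕ} {t g : ℕ}

theorem gu_locA (h : Rs Fr Rel lev On A tl t) (y : Finset ι) (n : ℕ) (a : τ) (ha : tl a ≤ n)
    (κ κ' : ∀ R, Key R) (hκ : ∀ R, lev R < n → κ R = κ' R) : A a y κ → A a y κ' := by
  induction hn : tl a using Nat.strong_induction_on generalizing a κ κ' with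
  | _ m ih =>
    intro hA
    have key : ∀ κ κ' : ∀ R, Key R, (∀ R, lev R < n → κ R = κ' R) →
        ∀ R, lev R < tl a → R ∈ On y κ → R ∈ On y κ' := by
      intro κ κ' hκ R hR hO
      by_cases hF : R ∈ Fr
      · exact (h.free y κ' R hF).2 ((h.free y κ R hF).1 hO)
      · obtain ⟨a', h1, h2⟩ := h.reg R hF
        exact (h2 y κ').2 (ih (tl a') (by omega) a' (by omega) κ κ' hκ rfl ((h2 y κ).1 hO))
    obtain ⟨c, -, -, h1, h2, h3⟩ := h.sys a y κ hA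
    refine h3 y κ' (fun l hl => ?_) fun l hl hb => ?_
    · obtain ⟨a1, a2, a3⟩ := h1 l hl
      exact ⟨(hκ _ (by omega)).symm.trans a2, key κ κ' hκ _ a1 a3⟩
    · obtain ⟨a1, a2⟩ := h2 l hl
      exact a2 ⟨(hκ _ (by omega)).trans hb.1, key κ' κ (fun R hR => (hκ R hR).symm) _ a1 hb.2⟩

theorem gu_loc (h : Rs Fr Rel lev On A tl t) (y : Finset ι) (n : ℕ) (κ κ' : ∀ R, Key R)
    (hκ : ∀ R, lev R < n → κ R = κ' R) (R : ι) (hR : lev R ≤ n) : R ∈ On y κ ↔ R ∈ On y κ' := by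
  by_cases hF : R ∈ Fr
  · exact (h.free y κ R hF).trans (h.free y κ' R hF).symm
  · obtain ⟨a, h1, h2⟩ := h.reg R hF
    rw [h2, h2]
    exact ⟨gu_locA h y n a (h1.trans hR) κ κ' hκ,
      gu_locA h y n a (h1.trans hR) κ' κ fun R hR => (hκ R hR).symm⟩

/-- The small sound guards of a target. -/
def gu_G (Fr : Finset ι) (lev : ι → ℕ) (On : Finset ι → (∀ R, Key R) → Finset ι)
    (A : τ → Finset ι → (∀ R, Key R) → Prop) (tl : τ → ℕ) (D : ℕ) (a : τ) : Set (Ct Key) :=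
  {c | c.1.card ≤ D ∧ c.2.card ≤ D ∧ Disjoint c.1 c.2 ∧ (∀ l ∈ c.2, lev l.1 < tl a) ∧
    ∀ y κ, (∀ l ∈ c.1, κ l.1 = l.2 ∧ (l.1 ∈ Fr → l.1 ∈ y)) →
      (∀ l ∈ c.2, ¬Bit (On y κ) κ l) → A a y κ}

theorem gu_cert (h : Rs Fr Rel lev On A tl t) (hg : 2 * t ≤ g) (hg1 : 1 ≤ g) (y : Finset ι)
    (κ : ∀ R, Key R) (n : ℕ) (a : τ) (ha : tl a < n) (hA : A a y κ) :
    ∃ c ∈ gu_G Fr lev On A tl (g ^ n) a, (∀ l ∈ c.1, Bit (On y κ) κ l) ∧
      ∀ l ∈ c.2, ¬Bit (On y κ) κ l := by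
  classical
  induction n generalizing a with
  | zero => omega
  | succ n ih =>
    obtain ⟨c, h2, h3, h4, h5, h6⟩ := h.sys a y κ hA
    have h7 : ∀ l : Σ R, Key R, ∃ c' : Ct Key, l ∈ c.1 → c'.1.card ≤ g ^ n ∧
        c'.2.card ≤ g ^ n ∧ (∀ l' ∈ c'.2, lev l'.1 < lev l.1) ∧
        (∀ y' κ', (l.1 ∈ Fr → l.1 ∈ y') →
          (∀ m ∈ c'.1, κ' m.1 = m.2 ∧ (m.1 ∈ Fr → m.1 ∈ y')) →
          (∀ m ∈ c'.2, ¬Bit (On y' κ') κ' m) → l.1 ∈ On y' κ') ∧
        (∀ m ∈ c'.1, Bit (On y κ) κ m) ∧ ∀ m ∈ c'.2, ¬Bit (On y κ) κ m := by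
      intro l
      by_cases hl : l ∈ c.1
      · by_cases hF : l.1 ∈ Fr
        · exact ⟨(∅, ∅), fun _ => ⟨Nat.zero_le _, Nat.zero_le _, by simp,
            fun y' κ' e _ _ => (h.free y' κ' _ hF).2 (e hF), by simp, by simp⟩⟩
        · obtain ⟨a', b1, b2⟩ := h.reg _ hF
          obtain ⟨c', ⟨a1, a2, -, a4, a6⟩, a7, a8⟩ :=
            ih a' (by have := (h4 l hl).1; omega) ((b2 y κ).1 (h4 l hl).2.2)
          exact ⟨c', fun _ => ⟨a1, a2, fun l' hl' => (a4 l' hl').trans_le b1,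
            fun y' κ' _ e2 e3 => (b2 y' κ').2 (a6 y' κ' e2 e3), a7, a8⟩⟩
      · exact ⟨c, fun h => absurd h hl⟩
    choose cc h7 using h7
    have hp : 1 ≤ g ^ n := Nat.pow_pos hg1
    have hc : ∀ (X : Finset (Σ R, Key R)) (Y : (Σ R, Key R) → Finset (Σ R, Key R)),
        X.card ≤ t → (∀ l ∈ c.1, (Y l).card ≤ g ^ n) → (X ∪ c.1.biUnion Y).card ≤ g ^ (n + 1) := by
      intro X Y hX hY
      have a1 := card_union_le X (c.1.biUnion Y)
      have a2 := (card_biUnion_le_card_mul _ _ _ hY).trans (Nat.mul_le_mul_right _ h2)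
      have a3 := Nat.mul_le_mul_left t hp
      have a4 := Nat.mul_le_mul_right (g ^ n) hg
      rw [pow_succ']
      nlinarith
    have b1 : ∀ l ∈ c.1 ∪ c.1.biUnion fun l => (cc l).1, Bit (On y κ) κ l := by
      intro l hl
      rcases mem_union.1 hl with hl | hl
      · exact (h4 l hl).2
      · obtain ⟨m, hm, hl⟩ := mem_biUnion.1 hl
        exact (h7 m hm).2.2.2.2.1 l hl
    have b2 : ∀ l ∈ c.2 ∪ c.1.biUnion fun l => (cc l).2, lev l.1 < tl a ∧ ¬Bit (On y κ) κ l := by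
      intro l hl
      rcases mem_union.1 hl with hl | hl
      · exact h5 l hl
      · obtain ⟨m, hm, hl⟩ := mem_biUnion.1 hl
        exact ⟨((h7 m hm).2.2.1 l hl).trans (h4 m hm).1, (h7 m hm).2.2.2.2.2 l hl⟩
    refine ⟨(c.1 ∪ c.1.biUnion fun l => (cc l).1, c.2 ∪ c.1.biUnion fun l => (cc l).2),
      ⟨hc _ _ h2 fun l hl => (h7 l hl).1, hc _ _ h3 fun l hl => (h7 l hl).2.1,
        disjoint_left.2 fun l a b => (b2 l b).2 (b1 l a), fun l hl => (b2 l hl).1,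
        fun y' κ' e2 e3 => ?_⟩, b1, fun l hl => (b2 l hl).2⟩
    refine h6 y' κ'
      (fun l hl => ⟨(e2 l (mem_union_left _ hl)).1,
        (h7 l hl).2.2.2.1 y' κ' (e2 l (mem_union_left _ hl)).2 ?_ ?_⟩)
      fun l hl => e3 l (mem_union_left _ hl)
    · exact fun m hm => e2 m (mem_union_right _ (mem_biUnion.2 ⟨l, hl, hm⟩))
    · exact fun m hm => e3 m (mem_union_right _ (mem_biUnion.2 ⟨l, hl, hm⟩))

end Guard

theorem gu_rk {α : Type} [Fintype α] (S : Finset α) :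
    ∃ rk : α → ℕ, Function.Injective rk ∧ ∀ c ∈ S, rk c < S.card := by
  classical
  refine ⟨fun c => if h : c ∈ S then (S.equivFin ⟨c, h⟩ : ℕ)
    else S.card + (Fintype.equivFin α c : ℕ), fun c c' e => ?_, fun c hc => ?_⟩
  · dsimp only at e
    by_cases h : c ∈ S <;> by_cases h' : c' ∈ S
    · rw [dif_pos h, dif_pos h'] at e
      exact congrArg Subtype.val (S.equivFin.injective (Fin.ext e))
    · rw [dif_pos h, dif_neg h'] at e
      have := (S.equivFin ⟨c, h⟩).2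
      omega
    · rw [dif_neg h, dif_pos h'] at e
      have := (S.equivFin ⟨c', h'⟩).2
      omega
    · rw [dif_neg h, dif_neg h'] at e
      exact (Fintype.equivFin α).injective (Fin.ext (Nat.add_left_cancel e))
  · dsimp only
    rw [dif_pos hc]
    exact (S.equivFin ⟨c, hc⟩).2

/-- Guards exist. -/
theorem guardS : GuardStmt := by
  intro ι τ Key _ _ _ Fr Rel lev On A tl t g L M h hL hg hg1 hM
  classical
  obtain ⟨S, hS, hm⟩ : ∃ S : Finset (Ct Key), S.card ≤ 2 ^ ((M + 1) * (2 * g ^ (L + 1))) ∧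
      ∀ c : Ct Key, c.1.card ≤ g ^ (L + 1) → c.2.card ≤ g ^ (L + 1) → c ∈ S := by
    refine ⟨({P | P.card ≤ g ^ (L + 1)} : Finset (Finset (Σ R, Key R))) ×ˢ
      ({P | P.card ≤ g ^ (L + 1)} : Finset (Finset (Σ R, Key R))), ?_, fun c a b =>
      mem_product.2 ⟨mem_filter.2 ⟨mem_univ _, a⟩, mem_filter.2 ⟨mem_univ _, b⟩⟩⟩
    have h3 := h31u.card_small hM (g ^ (L + 1))
    rw [card_product, two_mul, mul_add, pow_add 2]
    exact Nat.mul_le_mul h3 h3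
  obtain ⟨rk, h1, h2⟩ := gu_rk S
  exact ⟨gu_G Fr lev On A tl (g ^ (L + 1)), rk, S.card, ⟨h.free, h.rel, h.reg,
    fun y n κ κ' hκ R hR => gu_loc h y n κ κ' hκ R hR,
    fun a c hc => ⟨hc.1, hc.2.1, hc.2.2.1, h2 c (hm c hc.1 hc.2.1), hc.2.2.2.1⟩,
    fun a c hc => hc.2.2.2.2,
    fun a y κ hA => gu_cert h hg hg1 y κ (L + 1) a (Nat.lt_succ_of_le (hL a)) hA,
    h1, Nat.pow_pos hg1⟩, hS⟩

/-- Definitions by recursion on a level. -/
theorem fixS : FixStmt := by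
  intro ι _ lev Φ h
  classical
  obtain ⟨O, hO⟩ : ∃ O : ℕ → Finset ι, ∀ n R, R ∈ O (n + 1) ↔ Φ R (O n) :=
    ⟨fun n => Nat.rec ∅ (fun _ O => univ.filter fun R => Φ R O) n, fun n R =>
      mem_filter.trans (and_iff_right (mem_univ _))⟩
  have key : ∀ n R, lev R < n → (R ∈ O n ↔ Φ R (O n)) := by
    intro n
    induction n with
    | zero => exact fun R hR => absurd hR (Nat.not_lt_zero _)
    | succ n ih =>
      intro R hR
      have e : ∀ R', lev R' < lev R → (R' ∈ O (n + 1) ↔ R' ∈ O n) := fun R' h' =>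
        (hO n R').trans (ih R' (by omega)).symm
      exact (hO n R).trans ⟨h R _ _ e, h R _ _ fun R' h' => (e R' h').symm⟩
  exact ⟨O (univ.sup lev + 1), fun R => key _ R (Nat.lt_succ_of_le (le_sup (mem_univ R)))⟩

end Pool.Agent.MP_a2d820_lc.h31w
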