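import Pool.Agent.MP_a2d820_lc.h31w.Spec
import Pool.Agent.MP_a2d820_lc.h31p.Base
import Pool.Agent.MP_a2d820_lc.h31p.Ind
import Pool.Agent.MP_a2d820_lc.h31p.For

/-!
The values of the nodes one level up, and the leaves.
-/

set_option autoImplicit false

namespace Pool.Agent.MP_a2d820_lc.h31w

open Finset Pool.Agent.MP_a2d820_lc.h69
open Pool.Agent.MP_a2d820_lc.h31u (Ct Live Chain)
open Pool.Agent.MP_a2d820_lc.h31p (Pr One Cert Fat Agr pt nw rowOf Loc Env)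
open Pool.Agent.MP_a2d820_lc.h70 (Agl Ac)
open Pool.Agent.MP_a2d820_lc.h22p (rt gw)
open Pool.Agent.MP_a2d820_lc.h22 (RelUP)

theorem ke_base {E : Env} {h : ℕ} {b : Finset E.Nd} {κ : E.Nd → E.Nd}
    (hκ : ∀ r ∈ E.Pa h 0, κ r ∈ E.ch r ∧ κ r ∉ b) {O : Finset E.Nd} (hO : O ⊆ E.Pa h 0) :
    b ⊆ pt κ O := fun v hv => mem_compl.2 fun a => by
  obtain ⟨r, r1, rfl⟩ := mem_image.1 a
  exact (hκ r (hO r1)).2 hv

theorem ke_rk {E : Env} {π v : E.Nd} (hv : v ∈ E.ch π) : E.rk v = E.rk π := by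
  unfold Env.rk
  rw [(mem_filter.1 hv).2.1]

/-- A false child of a region is its key, and the region is on. -/
theorem ke_false (hF : ForStmt) {E : Env} (hE : Ok E) {h : ℕ} {b : Finset E.Nd}
    {σ : Finset E.Nd → Lang} {κ : E.Nd → E.Nd} (hH : E.Hgt h b σ)
    (hκ : ∀ r ∈ E.Pa h 0, κ r ∈ E.ch r ∧ κ r ∉ b) {O : Finset E.Nd} (hO : O ⊆ E.Pa h 0)
    {π : E.Nd} (hπ : π ∈ E.Pa h 0) {w : List Bool} (a1 : w.length = 8 * π.2.1.length)
    (a2 : nw h (rowOf (σ (pt κ O)) π.1) (w ++ π.2.1) = false) :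
    π ∈ O ∧ (κ π).2.1 = w ++ π.2.1 := by
  obtain ⟨-, h1, h2, -⟩ := mem_filter.1 hπ
  have h3 : 9 * π.2.1.length = 9 ^ (E.lv π.1 - h) * E.rl π.1 := by
    rw [h2, ← mul_assoc, ← pow_succ', show E.lv π.1 - h - 1 + 1 = E.lv π.1 - h by omega]
  have a3 : (w ++ π.2.1).length = 9 * π.2.1.length := by
    rw [List.length_append]
    omega
  let v : E.Nd := (π.1, ⟨w ++ π.2.1, by
    rw [a3, h3]
    exact (Nat.mul_le_mul_right _ (Nat.pow_le_pow_right (by norm_num) (Nat.sub_le _ _))).trans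
      (hE.len _ π.1.2).2.2.2.2.2⟩)
  have a4 : v ∉ pt κ O := fun a => by
    have := (hH.tree _ (ke_base hκ hO) v (mem_filter.2 ⟨mem_univ _, h1, a3.trans h3⟩)).2 a
    exact absurd (this.symm.trans a2) (by simp)
  obtain ⟨r, r1, r2⟩ := mem_image.1 (not_not.1 fun a => a4 (mem_compl.2 a))
  obtain rfl : π = r := (hF E hE).2.2.1 π r v
    (mem_filter.2 ⟨mem_univ _, rfl, a3, List.drop_left' a1⟩) (r2 ▸ (hκ r (hO r1)).1)
  exact ⟨r1, by rw [r2]⟩

theorem keyS (hF : ForStmt) : KeyStmt := by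
  intro E hE h b σ κ hH hκ O hO
  have hb := ke_base hκ hO
  refine ⟨hb, fun O' hO' t e => hH.loc _ _ t hb (ke_base hκ hO') fun v hv => ?_,
    fun π hπ => ⟨?_, fun w w' a1 a2 a3 a4 => ?_⟩⟩
  · simp only [pt, mem_compl, mem_image]
    refine not_congr ⟨?_, ?_⟩ <;> rintro ⟨r, r1, rfl⟩
    · exact ⟨r, (e r (ke_rk (hκ r (hO' r1)).1 ▸ hv)).1 r1, rfl⟩
    · exact ⟨r, (e r (ke_rk (hκ r (hO r1)).1 ▸ hv)).2 r1, rfl⟩
  · simp only [nw, decide_eq_true_eq]
    constructor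
    · rintro ⟨w, a1, a2⟩
      exact (ke_false hF hE hH hκ hO hπ a1 a2).1
    · intro a
      obtain ⟨a1, a2, a3⟩ := (mem_filter.1 (hκ π hπ).1).2
      refine ⟨(κ π).2.1.take (8 * π.2.1.length), by rw [List.length_take]; omega, ?_⟩
      have a4 := hH.tree _ hb (κ π) (h31p.For.ch_sub E hπ (hκ π hπ).1)
      have a5 := List.take_append_drop (8 * π.2.1.length) (κ π).2.1
      rw [a3] at a5
      rw [a5, ← a1]
      exact Bool.eq_false_iff.2 fun e => mem_compl.1 (a4.1 e) (mem_image_of_mem _ a)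
  · exact List.append_cancel_right
      ((ke_false hF hE hH hκ hO hπ a1 a3).2.symm.trans (ke_false hF hE hH hκ hO hπ a2 a4).2)

theorem ke_mem {V : Type} [Fintype V] (b : Finset V) (v : V) : Cert b univ 1 fun y => v ∈ y :=
  ⟨fun _ _ h => ⟨{v}, subset_univ _, by simp, fun _ _ a => (a v (mem_singleton_self v)).2 h⟩,
    fun _ _ h => ⟨{v}, subset_univ _, by simp,
      fun _ _ a c => h ((a v (mem_singleton_self v)).1 c)⟩⟩

theorem ke_bits (E : Env) (b : Finset E.Nd) (s : List Bool) :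
    Cert b univ 1 fun y => h31p.Base.Om E y s = true := by
  by_cases hv : ∃ v : E.Nd, v.2.1.length = E.rk v ∧ s = ad v.1 v.2.1 0
  · obtain ⟨v, hv, rfl⟩ := hv
    exact h31p.Base.cert_mono (ke_mem b v) subset_rfl le_rfl fun y => (h31p.Base.om_ad _ hv).symm
  · exact h31p.Base.cert_mono (h31p.Base.cert_const b _ 1 (E.A₀ s = true)) subset_rfl le_rfl
      fun y => by rw [h31p.Base.om_not _ hv]

theorem baseS (hF : ForStmt) : BaseStmt := by
  intro E hE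
  have hT := hE.one_le
  have hQ : 1 ≤ E.Q := (zs_pos hT E.L E.d).trans hE.hQ
  refine ⟨(E.Fr 0)ᶜ, h31p.Base.Om E, fun y _ s hs => ?_,
    ⟨fun y _ v hv => h31p.Base.om_ad _ (mem_filter.1 hv).2.2,
      fun y y' t _ _ e => h31p.Base.om_loc e⟩,
    fun s => cert_up (ke_bits E _ s) subset_rfl hT, fun y _ v hv h => ?_, fun o ho _ g hg => ?_,
    fun π hπ => le_trans ?_ (((hF E hE).2.2.2 0).1 π hπ)⟩
  · refine (h31p.Base.om_not y fun ⟨v, _, e⟩ => ?_).symm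
    rw [e, lev_ad] at hs
    exact absurd (hE.len _ v.1.2).1 (by omega)
  · exact absurd (hE.len v hv).2.2.2.2.1 (by omega)
  · exact cert_up ((h31p.circS E.Nd _ univ 1 E.T (h31p.Base.Om E) ∅ (ke_bits E _)
      (fun _ h => h.elim)).1 g (hE.g0 o ho g hg)) subset_rfl (mul_one _).le
  · exact Nat.mul_le_mul_left _ (Nat.pow_le_pow_right hQ (Nat.zero_le _))

end Pool.Agent.MP_a2d820_lc.h31w
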