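import Pool.Agent.MP_a2d820_lc.h31w.Spec
import Pool.Agent.MP_a2d820_lc.h31p.Zero

/-!
The choice of the base point at the lowest level and from one level to the next.
-/

set_option autoImplicit false

namespace Pool.Agent.MP_a2d820_lc.h31w

open Finset Pool.Agent.MP_a2d820_lc.h69
open Pool.Agent.MP_a2d820_lc.h31u (Ct Live Chain)
open Pool.Agent.MP_a2d820_lc.h31p (Pr One Cert Fat Agr pt nw rowOf Loc Env)
open Pool.Agent.MP_a2d820_lc.h70 (Agl Ac)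
open Pool.Agent.MP_a2d820_lc.h22p (rt gw)
open Pool.Agent.MP_a2d820_lc.h22 (RelUP)

theorem le_q {Q : ℕ} (h : 8 ≤ Q) : (0 : ℝ) < 4 / Q ∧ (4 : ℝ) / Q ≤ 1 / 2 := by
  have : (8 : ℝ) ≤ Q := by exact_mod_cast h
  exact ⟨by positivity, by rw [div_le_div_iff₀ (by linarith) two_pos]; linarith⟩

theorem le_idx {c m j e : ℕ} (h1 : c ≤ 2 ^ m) (h2 : m + j ≤ e) :
    (c : ℝ) * (1 / 2) ^ e ≤ (1 / 2) ^ j := by
  have h3 : c * 2 ^ j ≤ 2 ^ e := (Nat.mul_le_mul_right _ h1).trans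
    (by rw [← pow_add]; exact Nat.pow_le_pow_right two_pos h2)
  rw [one_div_pow, one_div_pow, mul_one_div, div_le_div_iff₀ (by positivity) (by positivity),
    one_mul]
  exact_mod_cast h3

theorem le_bad {c k K j : ℕ} (h : (c : ℝ) ≤ k * (K * (1 / 2) ^ j)) : c * 2 ^ j ≤ k * K := by
  rw [one_div_pow, mul_one_div, ← mul_div_assoc, le_div_iff₀ (by positivity)] at h
  exact_mod_cast h

theorem le_swap {V Ω : Type} [Fintype V] [DecidableEq V] [Fintype Ω] {q c : ℝ} (h0 : 0 < q)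
    (h1 : q ≤ 1) (E : Ω → Finset V → Prop)
    (h : ∀ z, ∀ S : Finset Ω, (∀ κ ∈ S, E κ z) → (S.card : ℝ) ≤ c) :
    ∑ κ, Pr q (E κ) ≤ c := by
  classical
  have e : ∑ z : Finset V, h31p.wt q z = 1 := by
    simpa [Pr] using h31p.Zero.pr_disj (q := q) (∅ : Finset V)
  unfold Pr
  rw [sum_comm, ← mul_one c, ← e, mul_sum]
  refine sum_le_sum fun z _ => ?_
  rw [← sum_filter, sum_const, nsmul_eq_mul]
  exact mul_le_mul_of_nonneg_right (h z _ fun κ hκ => (mem_filter.1 hκ).2)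
    (h31p.Zero.wt_nonneg h0 h1 z)

theorem botS (h1 : IdxStmt) (h2 : AvgStmt) : BotStmt := by
  intro ι τ ι' Key _ _ _ _ X hX P C f M Q s β e j b a1 a2 a3 a4 a5 a6 a7 a8
  classical
  obtain ⟨I, i1, i2⟩ := h1 ι τ M β X.D X.N a1 a2 a3
  have hQ : 8 ≤ Q := by have := hX.pos; omega
  obtain ⟨q0, q1⟩ := le_q hQ
  have q2 : 2 * (4 / (Q : ℝ)) * X.D ≤ 1 := by
    have : (8 * X.D : ℝ) ≤ Q := by exact_mod_cast a4
    have : (0 : ℝ) < Q := by exact_mod_cast (by omega : 0 < Q)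
    rw [← mul_div_assoc, div_mul_eq_mul_div, div_le_one this]
    linarith
  have lo : ∀ κ y, X.Lo 0 κ y = ∅ := fun κ y => by simp [Dat.Lo]
  obtain ⟨b', b1, b2, B, b3, b4⟩ := h2 ι ι' _ P C f Q s b (fun κ y => ¬X.Nn 0 β e κ y)
    (Fintype.card (∀ R, Key R) * (1 / 2) ^ j) hQ a7 a8 (by
      rw [← card_univ, ← nsmul_eq_mul]
      refine sum_le_card_nsmul _ _ _ fun κ _ => ?_
      refine (h31p.Zero.pr_union q0 (by linarith) I (fun i z =>
        ¬Cert (b ∪ z) univ (max X.D e) (X.Gv 0 i.1 i.2.1 i.2.2 κ)) fun z hz => ?_).trans ?_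
      · simp only [Dat.Nn, not_forall] at hz
        obtain ⟨a, B, θ, c1, c2, c3⟩ := hz
        exact ⟨_, (i2 a B θ).2 ⟨c1, c2⟩, fun h => c3 (max_eq_right a5 ▸ h.2)⟩
      refine (sum_le_card_nsmul _ _ ((1 / 2) ^ e) fun i _ => ?_).trans
        (by rw [nsmul_eq_mul]; exact le_idx i1 a6)
      refine h31p.zeroS ι _ b univ X.D e _ ?_ ?_ q0 (by linarith) q2
      · rintro y y' - hy ⟨c, ⟨c1, c2, c3⟩, c4⟩
        rw [lo] at c4
        exact ⟨c, ⟨c1, c2, fun l hl h => hy (c3 l hl h)⟩, by rwa [lo]⟩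
      · rintro y - ⟨c, ⟨c1, c2, c3⟩, c4⟩
        rw [lo] at c4
        refine ⟨c.1.image Sigma.fst ∩ X.Fr, subset_univ _, fun v hv => ?_,
          (card_le_card inter_subset_left).trans (card_image_le.trans (hX.small _ c c1).1),
          c, ⟨c1, c2, fun l hl h => mem_union_right _
            (mem_inter.2 ⟨mem_image_of_mem _ hl, h⟩)⟩, by rwa [lo]⟩
        obtain ⟨l, hl, rfl⟩ := mem_image.1 (mem_inter.1 hv).1
        exact c3 l hl (mem_inter.1 hv).2)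
  exact ⟨b', b1, b2, B, le_bad (by exact_mod_cast b3), fun κ hκ => by_contra fun h => hκ (b4 κ h)⟩

theorem levS (h1 : IdxStmt) (h2 : AvgStmt) (h3 : NextStmt) (h4 : LocStmt) (h5 : CntStmt)
    (h6 : UpStmt) : LevStmt := by
  intro ι τ ι' Key _ _ _ _ X hX P C f M Q s n β β' e r J j b Bad a1 a2 a3 a4 hQ a5 a6 a7 a8 a9 a0
  classical
  obtain ⟨I, i1, i2⟩ := h1 ι τ M β' X.D X.N a1 a2 a3
  obtain ⟨q0, q1⟩ := le_q hQ
  have q2 : 8 * (4 / (Q : ℝ)) * (J * (X.D + 2 * X.D * r + e) : ℕ) ≤ 1 := by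
    have : (32 * (J * (X.D + 2 * X.D * r + e) : ℕ) : ℝ) ≤ Q := by exact_mod_cast a5
    have : (0 : ℝ) < Q := by exact_mod_cast (by omega : 0 < Q)
    rw [← mul_div_assoc, div_mul_eq_mul_div, div_le_one this]
    linarith
  obtain ⟨b', b1, b2, B, b3, b4⟩ := h2 ι ι' _ P C f Q s b
    (fun κ y => κ ∉ Bad ∧ ∃ i ∈ I, ∃ y₁, y ⊆ y₁ ∧ X.Chn n J i.1 i.2.1 i.2.2 κ y₁)
    (2 * (Fintype.card (∀ R, Key R) * (1 / 2) ^ j)) hQ a8 a9 (by
      refine (sum_le_sum (g := fun κ => ∑ i ∈ I, 2 * Pr (4 / (Q : ℝ)) fun z =>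
        X.Chn n J i.1 i.2.1 i.2.2 κ (b ∪ z)) fun κ _ => ?_).trans ?_
      · refine (h31p.Zero.pr_union q0 (by linarith) I (fun i z => κ ∉ Bad ∧ ∃ y₁, b ∪ z ⊆ y₁ ∧
          X.Chn n J i.1 i.2.1 i.2.2 κ y₁) fun z ⟨c1, i, c2, c3⟩ => ⟨i, c2, c1, c3⟩).trans
          (sum_le_sum fun i hi => ?_)
        obtain ⟨c1, c2⟩ := (i2 i.1 i.2.1 i.2.2).1 hi
        by_cases hκ : κ ∈ Bad
        · refine (h31p.Zero.pr_union q0 (by linarith) (∅ : Finset Unit) (fun _ _ => True)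
            fun z hz => absurd hκ hz.1).trans ?_
          rw [sum_empty]
          refine mul_nonneg two_pos.le (sum_nonneg fun z _ => ?_)
          split_ifs
          exacts [h31p.Zero.wt_nonneg q0 (by linarith) z, le_rfl]
        · exact (h31p.Zero.pr_mono q0 (by linarith) fun z hz => hz.2).trans (h6 ι _ b _ _ q0 q1 q2
            (h4 ι τ Key X hX n β e r J κ b (a0 κ hκ).1 (a0 κ hκ).2 _ _ _ (by omega) c2))
      rw [sum_comm]
      refine (sum_le_card_nsmul _ _ (2 * ((Fintype.card (∀ R, Key R) : ℝ) * (1 / 2) ^ J))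
        fun i _ => ?_).trans ?_
      · rw [← mul_sum]
        refine mul_le_mul_of_nonneg_left (le_swap q0 (by linarith) _ fun z S hS => ?_) two_pos.le
        rw [one_div_pow, mul_one_div, le_div_iff₀ (by positivity)]
        exact_mod_cast h5 ι τ Key X hX a4 n J _ _ _ _ S hS
      · rw [nsmul_eq_mul, mul_left_comm, mul_left_comm (I.card : ℝ)]
        gcongr
        exact le_idx i1 a7)
  refine ⟨b', b1, b2, B, le_bad (by push_cast; linarith), fun κ c1 c2 =>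
    h3 ι τ Key X hX n β β' e r J κ b' ((a0 κ c1).1.up b1 le_rfl) ((a0 κ c1).2.up b1 le_rfl) a6
      fun a B' θ y d1 d2 d3 d4 => c2 (b4 κ ⟨c1, (a, B', θ), (i2 a B' θ).2 ⟨d1, d2⟩, y, d3, d4⟩)⟩

end Pool.Agent.MP_a2d820_lc.h31w
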