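import Pool.Agent.MP_a2d820_lc.h31w.Spec

/-!
A chain of hits has a small certificate.
-/

set_option autoImplicit false

namespace Pool.Agent.MP_a2d820_lc.h31w

open Finset
open Pool.Agent.MP_a2d820_lc.h31u (Ct Live Chain new)
open Pool.Agent.MP_a2d820_lc.h31p (One Cert Agr)

variable {ι τ : Type} {Key : ι → Type} [Fintype ι] [DecidableEq ι] {X : Dat ι τ Key}

theorem lo_stat {n r : ℕ} {κ : ∀ R, Key R} {b y : Finset ι} (h : X.Rn (n + 1) r κ b) (hy : b ⊆ y)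
    (T : Finset ι) : ∃ W : Finset ι, W.card ≤ T.card * r ∧ ∀ y', b ⊆ y' → Agr W y y' →
      ∀ R ∈ T, X.lev R ≤ n → (R ∈ X.On y' κ ↔ R ∈ X.On y κ) := by
  have h1 : ∀ R, ∃ W : Finset ι, W.card ≤ r ∧ ∀ y', b ⊆ y' → Agr W y y' → X.lev R ≤ n →
      (R ∈ X.On y' κ ↔ R ∈ X.On y κ) := by
    intro R
    by_cases h2 : X.lev R ≤ n
    · by_cases h3 : R ∈ X.On y κ
      · obtain ⟨W, -, a1, a2⟩ := (h R (by omega)).1 y hy h3
        exact ⟨W, a1, fun y' a3 a4 _ => iff_of_true (a2 y' a3 a4) h3⟩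
      · obtain ⟨W, -, a1, a2⟩ := (h R (by omega)).2 y hy h3
        exact ⟨W, a1, fun y' a3 a4 _ => iff_of_false (a2 y' a3 a4) h3⟩
    · exact ⟨∅, by simp, fun _ _ _ h3 => absurd h3 h2⟩
  choose W a1 a2 using h1
  exact ⟨T.biUnion W, card_biUnion_le_card_mul _ _ _ fun R _ => a1 R, fun y' a3 a4 R hR =>
    a2 R y' a3 fun v hv => a4 v (mem_biUnion.2 ⟨R, hR, hv⟩)⟩

theorem lo_main (hX : X.Ok) {n β e r θ : ℕ} {κ : ∀ R, Key R} {b y : Finset ι} {a : τ}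
    (hN : X.Nn n β e κ b) (hR : X.Rn (n + 1) r κ b) (hy : b ⊆ y) (J : ℕ) (B S : Finset ι)
    (hB : B.card + J * (X.D + 1) ≤ β)
    (h : Chain (X.Cy a θ y) X.rk (X.Cu n κ y) κ J (B ∪ X.Lo n κ y) S) :
    ∃ W : Finset ι, W.card ≤ J * (X.D + 2 * X.D * r + e) ∧ ∀ y', b ⊆ y' → Agr W y y' →
      Chain (X.Cy a θ y') X.rk (X.Cu n κ y') κ J (B ∪ X.Lo n κ y') S := by
  induction J generalizing B S with
  | zero => exact ⟨∅, by simp, fun _ _ _ => h⟩
  | succ J ih =>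
    obtain ⟨hS, c, hc, hm, l, hl, hκ, hlS, ht⟩ := h
    obtain ⟨s1, s2, -, s3, -⟩ := hX.small a c hc.1.1
    have c1 : (c.1.image Sigma.fst).card ≤ X.D := card_image_le.trans s1
    have c2 : (c.2.image Sigma.fst).card ≤ X.D := card_image_le.trans s2
    have c3 : (new (X.Cu n κ y) c l.1).card ≤ X.D + 1 := (card_insert_le _ _).trans
      (Nat.succ_le_succ ((card_le_card inter_subset_left).trans c1))
    rw [Nat.succ_mul] at hB
    rw [union_right_comm] at ht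
    obtain ⟨W₄, d4, e4⟩ := ih _ _ (by have := card_union_le B (new (X.Cu n κ y) c l.1); omega) ht
    obtain ⟨W₃, -, d3, e3⟩ := hN a B (X.rk c) (by omega) s3.le y hy fun ⟨c', h1⟩ =>
      (hm c' ⟨⟨h1.1.1, h1.1.2.1.trans hc.1.2.1, h1.1.2.2⟩, h1.2⟩).not_gt h1.1.2.1
    obtain ⟨W₂, d2, e2⟩ := lo_stat hR hy (c.1.image Sigma.fst ∪ c.2.image Sigma.fst)
    refine ⟨c.1.image Sigma.fst ∪ W₂ ∪ W₃ ∪ W₄, ?_, fun y' hy' hA => ?_⟩
    · have a1 := card_union_le (c.1.image Sigma.fst ∪ W₂ ∪ W₃) W₄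
      have a2 := card_union_le (c.1.image Sigma.fst ∪ W₂) W₃
      have a3 := card_union_le (c.1.image Sigma.fst) W₂
      have a4 := d2.trans (Nat.mul_le_mul_right r
        ((card_union_le _ _).trans ((Nat.add_le_add c1 c2).trans_eq (two_mul _).symm)))
      rw [Nat.succ_mul]
      omega
    have t4 := e4 y' hy' fun v hv => hA v (by simp [hv])
    have t3 := e3 y' hy' fun v hv => hA v (by simp [hv])
    have t2 := e2 y' hy' fun v hv => hA v (by simp [hv])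
    have t1 : new (X.Cu n κ y') c l.1 = new (X.Cu n κ y) c l.1 := by
      refine congrArg (insert l.1) (ext fun R => ?_)
      simp only [mem_inter, Dat.Cu, mem_filter]
      exact and_congr_right fun a1 => and_congr_left fun a2 => t2 R (mem_union_left _ a1) a2.le
    refine ⟨fun R h1 => ?_, c, ⟨⟨hc.1.1, hc.1.2.1, fun m h1 h2 => ?_⟩, hc.2.1, fun m h1 h2 => ?_⟩,
      fun c' h1 => not_lt.1 fun h2 => t3 ⟨c', ⟨h1.1.1, h2, h1.1.2.2⟩, h1.2⟩, l, hl, hκ, hlS, ?_⟩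
    · obtain ⟨a1, a2⟩ := hS R h1
      obtain ⟨a3, a4⟩ := mem_filter.1 a1
      refine ⟨?_, fun h2 => (mem_union.1 h2).elim (fun h3 => a2 (mem_union_left _ h3))
        fun h3 => (mem_filter.1 h3).2.ne a4⟩
      by_cases h2 : R = l.1
      · exact mem_filter.2 ⟨(t2 R (mem_union_right _ (h2 ▸ mem_image_of_mem _ hl)) a4.le).2 a3, a4⟩
      · exact (t4.sub R (mem_erase.2 ⟨h2, h1⟩)).1
    · exact (hA m.1 (by simp [mem_image_of_mem Sigma.fst h1])).2 (hc.1.2.2 m h1 h2)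
    · refine hc.2.2 m h1 ((mem_union.1 h2).elim (mem_union_left _) fun h3 => mem_union_right _ ?_)
      obtain ⟨a1, a2⟩ := mem_filter.1 h3
      exact mem_filter.2 ⟨(t2 _ (mem_union_right _ (mem_image_of_mem _ h1)) a2.le).1 a1, a2⟩
    · rwa [t1, union_right_comm]

theorem locS : LocStmt := by
  intro ι τ Key _ _ X hX n β e r J κ b hN hR a B θ hB _ y hy ⟨S, hS⟩
  obtain ⟨W, a1, a2⟩ := lo_main hX hN hR hy J B S hB hS
  exact ⟨W, subset_univ _, a1, fun y' a3 a4 => ⟨S, a2 y' a3 a4⟩⟩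

end Pool.Agent.MP_a2d820_lc.h31w
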