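import Pool.Agent.MP_a2d820_lc.h31w.Spec
import Pool.Agent.MP_a2d820_lc.h22q.Prob

/-!
The two probabilistic blocks.
-/

set_option autoImplicit false

namespace Pool.Agent.MP_a2d820_lc.h31w

open Finset Pool.Agent.MP_a2d820_lc.h31p Pool.Agent.MP_a2d820_lc.h31p.Sparse

theorem upS : h31w.UpStmt := fun _ _ _ q _ σ _ h0 h1 h2 h =>
  h22q.upOne h0 h1 (by
    have : 0 ≤ q * σ := by positivity
    linarith) h

theorem avgS : AvgStmt := by
  classical
  intro V ι Ω _ _ _ P C f Q s b E ε hQ hP hF hE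
  have hQ' : (8 : ℝ) ≤ Q := by exact_mod_cast hQ
  have hq0 : 0 < 4 / (Q : ℝ) := by positivity
  have hq1 : 4 / (Q : ℝ) < 1 := by
    rw [div_lt_iff₀ (by linarith)]
    linarith
  rw [h22q.sum_pr] at hE
  have hε : 0 ≤ ε :=
    (sum_nonneg fun z _ => mul_nonneg (wt_pos hq0 hq1 z).le (Nat.cast_nonneg _)).trans hE
  by_contra hcon
  have hbig : ∀ z : Finset V, Fat P C f Q s (b ∪ z) →
      2 * ε < (#{κ ∈ (univ : Finset Ω) | E κ (b ∪ z)} : ℝ) := by
    intro z hz
    by_contra h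
    exact hcon ⟨b ∪ z, subset_union_left, hz, _, not_lt.1 h,
      fun κ h' => mem_filter.2 ⟨mem_univ _, h'⟩⟩
  have hnf := not_fat P C f Q s b hQ hP hF
  have hsum : ∑ z : Finset V, (if Fat P C f Q s (b ∪ z) then wt (4 / (Q : ℝ)) z else 0) +
      ∑ z : Finset V, (if Fat P C f Q s (b ∪ z) then 0 else wt (4 / (Q : ℝ)) z) = 1 := by
    rw [← sum_add_distrib, ← sum_wt (V := V) (4 / (Q : ℝ))]
    refine sum_congr rfl fun z _ => ?_
    split_ifs <;> simp
  have hfat : 1 / 2 ≤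
      ∑ z : Finset V, (if Fat P C f Q s (b ∪ z) then wt (4 / (Q : ℝ)) z else 0) := by linarith
  have hex : ∃ z : Finset V, Fat P C f Q s (b ∪ z) := by
    by_contra h
    push Not at h
    rw [sum_eq_zero fun z _ => if_neg (h z)] at hfat
    norm_num at hfat
  have hlt : ∑ z : Finset V, (if Fat P C f Q s (b ∪ z) then wt (4 / (Q : ℝ)) z else 0) * (2 * ε) <
      ∑ z : Finset V, wt (4 / (Q : ℝ)) z * (#{κ ∈ (univ : Finset Ω) | E κ (b ∪ z)} : ℝ) := by
    refine sum_lt_sum (fun z _ => ?_) ?_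
    · have hw := wt_pos hq0 hq1 z
      split_ifs with h
      · exact mul_le_mul_of_nonneg_left (hbig z h).le hw.le
      · rw [zero_mul]
        positivity
    · obtain ⟨z, hz⟩ := hex
      refine ⟨z, mem_univ _, ?_⟩
      rw [if_pos hz]
      exact mul_lt_mul_of_pos_left (hbig z hz) (wt_pos hq0 hq1 z)
  rw [← sum_mul] at hlt
  have h3 := mul_le_mul_of_nonneg_right hfat (show 0 ≤ 2 * ε by linarith)
  linarith

end Pool.Agent.MP_a2d820_lc.h31w
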