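import Pool.Agent.MP_a2d820_lc.h31w.Spec

/-!
One round: the levels are treated from the bottom to the top.
-/

set_option autoImplicit false

namespace Pool.Agent.MP_a2d820_lc.h31w

open Finset Pool.Agent.MP_a2d820_lc.h69
open Pool.Agent.MP_a2d820_lc.h31u (Ct Live Chain)
open Pool.Agent.MP_a2d820_lc.h31p (Pr One Cert Fat Agr pt nw rowOf Loc Env)
open Pool.Agent.MP_a2d820_lc.h70 (Agl Ac)
open Pool.Agent.MP_a2d820_lc.h22p (rt gw)
open Pool.Agent.MP_a2d820_lc.h22 (RelUP)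

theorem ro_a {g D M : ℕ} (hg : 8 ≤ g) (hM : M + 1 ≤ g) (hD : 1 ≤ D) :
    1 + 2 * (M + 1) * (D + 1) ≤ g * g * D ∧ 8 * D + g + 1 ≤ g * g * D ∧ 64 ≤ g * g * D := by
  have a : (M + 1) * (D + 1) ≤ g * (2 * D) := Nat.mul_le_mul hM (by omega)
  have b : 8 * (g * D) ≤ g * (g * D) := Nat.mul_le_mul_right _ hg
  have c : 8 * D ≤ g * D := Nat.mul_le_mul_right _ hg
  have d : g * 1 ≤ g * D := Nat.mul_le_mul_left _ hD
  rw [mul_assoc g g D, mul_assoc 2]
  rw [mul_left_comm] at a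
  omega

theorem ro_b {g D M j β : ℕ} (hj : M + 1 + j ≤ g) (h : 8 * D + g + 1 ≤ β) :
    M + (M + 1) * (β + 2 * D) + 1 + j ≤ 2 * (M + 1) * β := by
  have a : (M + 1) * (2 * D + (g + 1)) ≤ (M + 1) * β := Nat.mul_le_mul_left _ (by omega)
  have b : 1 * (g + 1) ≤ (M + 1) * (g + 1) := Nat.mul_le_mul_right _ (by omega)
  rw [mul_add] at a
  rw [mul_add, mul_assoc 2]
  omega

theorem ro_c {U D e J : ℕ} (hU : 64 ≤ U) (hD : 2 * D ≤ U) (he : U ≤ e) (hJ : J * (D + 1) ≤ U) :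
    e + J * (D + 1) * (2 * D * e) ≤ U ^ 3 * e ∧ 2 * D * e ≤ U * e ∧
      32 * (J * (D + 2 * D * (2 * D * e) + e)) ≤ U ^ 4 * e := by
  have a : 2 * D * e ≤ U * e := Nat.mul_le_mul_right _ hD
  have b : J * (D + 1) * (2 * D * e) ≤ U * (U * e) := Nat.mul_le_mul hJ a
  have c : 2 * D * (2 * D * e) ≤ U * (U * e) := Nat.mul_le_mul hD a
  have d : 64 * e ≤ U * e := Nat.mul_le_mul_right _ hU
  have f : 64 * (U * e) ≤ U * (U * e) := Nat.mul_le_mul_right _ hU
  have g : 64 * (U * (U * e)) ≤ U * (U * (U * e)) := Nat.mul_le_mul_right _ hU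
  have h : J ≤ U := (Nat.le_mul_of_pos_right _ D.succ_pos).trans hJ
  refine ⟨?_, a, ?_⟩
  · rw [show U ^ 3 * e = U * (U * (U * e)) by ring]
    omega
  · rw [show U ^ 4 * e = U * (U * (U * (U * e))) by ring, mul_left_comm]
    exact Nat.mul_le_mul h (by omega)

theorem roundS (h1 : GuardStmt) (h2 : TarStmt) (h3 : BotStmt) (h4 : LevStmt) : RoundStmt := by
  intro ι τ ι' Key _ _ _ _ Fr Rel lev On A tl P C f t g L M Q b₀ rs hL ne hK hτ hg hQ hR hP hF
  obtain ⟨G, rk, N, ok, hN⟩ := h1 ι τ Key Fr Rel lev On A tl t g L M rs hL (by omega) (by omega) hK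
  have hι : Fintype.card ι < 2 ^ M := lt_of_le_of_lt (Fintype.card_le_of_surjective Sigma.fst
    fun R => (ne R).elim fun k => ⟨⟨R, k⟩, rfl⟩) hK
  obtain ⟨D, hD⟩ : ∃ D, D = g ^ (L + 1) := ⟨_, rfl⟩
  obtain ⟨W, hW⟩ : ∃ W, W = g ^ (L + 3) := ⟨_, rfl⟩
  obtain ⟨U, hU⟩ : ∃ U, U = W ^ (L + 2) := ⟨_, rfl⟩
  rw [← hD] at ok hN
  have D1 : 1 ≤ D := ok.pos
  obtain ⟨w1, w2, w3⟩ := ro_a (g := g) (M := M) (by omega) (by omega) D1
  rw [show g * g * D = W by rw [hD, hW]; ring] at w1 w2 w3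
  have wle : ∀ i, W ≤ W ^ (i + 1) := fun i => Nat.le_self_pow i.succ_ne_zero W
  have wU : ∀ i ≤ L + 2, W ^ i ≤ U := fun i h => hU ▸ Nat.pow_le_pow_right (by omega) h
  have WU : W ≤ U := (wle 0).trans (wU 1 (by omega))
  have ule : ∀ i, U ≤ U ^ (i + 1) := fun i => Nat.le_self_pow i.succ_ne_zero U
  have uz : ∀ i ≤ 3 * L + 2, U ^ i ≤ zr g L := fun i h => by
    rw [hU, hW, ← pow_mul, ← pow_mul]
    refine Nat.pow_le_pow_right (by omega) ?_
    calc (L + 3) * ((L + 2) * i) ≤ (L + 3) * ((L + 3) * (3 * (L + 3))) := by gcongr <;> omega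
      _ = _ := by ring
  have Uz : U ≤ zr g L := (ule 0).trans (uz 1 (by omega))
  have step : ∀ β, β + 2 * (M + 1) * β * (D + 1) ≤ β * W := fun β =>
    le_trans (by ring_nf; rfl) (Nat.mul_le_mul_left β w1)
  have key : ∀ n i, n + i = L → ∃ (b : Finset ι) (Bad : Finset (∀ R, Key R)), b₀ ⊆ b ∧
      Fat P C f Q i b ∧ Bad.card * 2 ^ (L + 3) ≤ (2 + 4 * n) * Fintype.card (∀ R, Key R) ∧
      ∀ κ, κ ∉ Bad →
        Dat.Nn ⟨Fr, Rel, lev, On, A, tl, G, rk, D, N⟩ n (W ^ (i + 1)) (U ^ (3 * n + 1)) κ b ∧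
        Dat.Rn ⟨Fr, Rel, lev, On, A, tl, G, rk, D, N⟩ n (U ^ (3 * n + 1)) κ b := by
    intro n
    induction n with
    | zero =>
      intro i hi
      obtain rfl : i = L := by omega
      have a := ro_b (g := g) (D := D) (M := M) (j := i + 3) (by omega) (w2.trans (wle i))
      have b := step (W ^ (i + 1))
      have c : 2 * (M + 1) * W ^ (i + 1) ≤ 2 * (M + 1) * W ^ (i + 1) * (D + 1) :=
        Nat.le_mul_of_pos_right _ D.succ_pos
      rw [← pow_succ, ← hU] at b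
      obtain ⟨b', p1, p2, Bad, p3, p4⟩ := h3 ι τ ι' Key _ ok P C f M Q i (W ^ (i + 1)) U (i + 3) b₀
        hτ hι hN (show 8 * D ≤ Q by omega) (show D ≤ U by omega)
        (show M + (M + 1) * (_ + 2 * D) + 1 + _ ≤ U by omega) hP hF
      exact ⟨b', Bad, p1, p2, p3, fun κ h => ⟨(p4 κ h).up Subset.rfl (ule _),
        fun R h => absurd h (Nat.not_lt_zero _)⟩⟩
    | succ n ih =>
      intro i hi
      obtain ⟨b, Bad, q1, q2, q3, q4⟩ := ih (i + 1) (by omega)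
      have a := ro_b (g := g) (D := D) (M := M) (j := L + 3) (by omega) (w2.trans (wle i))
      have s := step (W ^ (i + 1))
      rw [← pow_succ] at s
      have u := wU (i + 1 + 1) (by omega)
      obtain ⟨c1, c2, c3⟩ := ro_c (U := U) (D := D) (e := U ^ (3 * n + 1))
        (J := 2 * (M + 1) * W ^ (i + 1)) (by omega) (by omega) (ule _) (by omega)
      rw [← pow_add] at c1 c3
      rw [← pow_succ'] at c2
      have r : ∀ κ, κ ∉ Bad → Dat.Rn ⟨Fr, Rel, lev, On, A, tl, G, rk, D, N⟩ (n + 1)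
          (2 * D * U ^ (3 * n + 1)) κ b := fun κ h =>
        (h2 ι τ Key _ ok n _ _ κ b (Nat.one_le_pow _ _ (by omega)) (q4 κ h).1 (q4 κ h).2).2
      obtain ⟨b', p1, p2, Bad', p3, p4⟩ := h4 ι τ ι' Key _ ok P C f M Q i n (W ^ (i + 1 + 1))
        (W ^ (i + 1)) (U ^ (3 * n + 1)) (2 * D * U ^ (3 * n + 1)) (2 * (M + 1) * W ^ (i + 1)) (L + 3)
        b Bad hτ hι hN
        (fun R h => (Nat.mul_le_mul_right _ (show 2 * D ≤ zr g L by omega)).trans (hR R h))
        (by omega) (c3.trans ((uz _ (by omega)).trans hQ)) s a hP q2 fun κ h => ⟨(q4 κ h).1, r κ h⟩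
      classical
      refine ⟨b', Bad ∪ Bad', q1.trans p1, p2, ?_, fun κ h => ?_⟩
      · have := Nat.mul_le_mul_right (2 ^ (L + 3)) (card_union_le Bad Bad')
        rw [add_mul] at this
        rw [show 2 + 4 * (n + 1) = 2 + 4 * n + 4 by ring, add_mul]
        omega
      · rw [mem_union, not_or] at h
        exact ⟨(p4 κ h.1 h.2).up Subset.rfl (c1.trans (Nat.pow_le_pow_right (by omega) (by omega))),
          (r κ h.1).up p1 (c2.trans (Nat.pow_le_pow_right (by omega) (by omega)))⟩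
  obtain ⟨b, Bad, q1, q2, q3, q4⟩ := key L 0 rfl
  have pos : 0 < Fintype.card (∀ R, Key R) := Fintype.card_pos
  have lt : 2 + 4 * L < 2 ^ (L + 3) := by
    have := L.lt_two_pow_self
    rw [pow_add]
    omega
  obtain ⟨κ, hκ⟩ : ∃ κ, κ ∉ Bad := by
    by_contra h
    rw [eq_univ_of_forall fun κ => not_not.1 fun k => h ⟨κ, k⟩, card_univ, mul_comm] at q3
    exact absurd (Nat.le_of_mul_le_mul_right q3 pos) lt.not_ge
  have tar : ∀ a, Cert b univ (zr g L) fun y => A a y κ := fun a =>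
    cert_up ((h2 ι τ Key _ ok L _ _ κ b (Nat.one_le_pow _ _ (by omega)) (q4 κ hκ).1
      (q4 κ hκ).2).1 a (hL a)) Subset.rfl (le_trans (Nat.mul_le_mul_right _
        (show 2 * D ≤ U by omega)) (by rw [← pow_succ']; exact uz _ le_rfl))
  refine ⟨κ, b, q1, q2, tar, fun R => ?_⟩
  by_cases h : R ∈ Fr
  · simp only [rs.free _ κ R h]
    exact ⟨fun y _ k => ⟨{R}, subset_univ _, by rw [card_singleton]; omega,
        fun y' _ e => (e R (mem_singleton_self R)).2 k⟩,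
      fun y _ k => ⟨{R}, subset_univ _, by rw [card_singleton]; omega,
        fun y' _ e u => k ((e R (mem_singleton_self R)).1 u)⟩⟩
  · obtain ⟨a, -, e⟩ := rs.reg R h
    simp only [e]
    exact tar a

end Pool.Agent.MP_a2d820_lc.h31w
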