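import Pool.Agent.MP_a2d820_lc.h31w.Spec
import Pool.Agent.MP_a2d820_lc.h31p.Step
import Pool.Agent.MP_a2d820_lc.h31p.Ind

/-!
A round with keys: the invariant passes from one height to the next.
-/

set_option autoImplicit false

namespace Pool.Agent.MP_a2d820_lc.h31w

open Finset Pool.Agent.MP_a2d820_lc.h69
open Pool.Agent.MP_a2d820_lc.h31u (Ct Live Chain)
open Pool.Agent.MP_a2d820_lc.h31p (Pr One Cert Fat Agr pt nw rowOf Loc Env)
open Pool.Agent.MP_a2d820_lc.h22p (rt)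

variable {E : Env} {h : ℕ} {b : Finset E.Nd}

/-- The candidate keys of a node. -/
noncomputable def st_ky (E : Env) (h : ℕ) (b : Finset E.Nd) (r : E.Nd) : Finset E.Nd :=
  if r ∈ E.Pa h 0 then E.ch r \ b else {r}

/-- The roots of the rows of level `h + 1`. -/
def st_Rt (E : Env) (h : ℕ) (R : E.Nd) : Prop := E.lv R.1 = h + 1 ∧ R.2.1 = rt (E.rl R.1) 0

theorem st_mem {r x : E.Nd} (hr : r ∈ E.Pa h 0) (hx : x ∈ st_ky E h b r) : x ∈ E.ch r ∧ x ∉ b := by
  rw [st_ky, if_pos hr] at hx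
  exact mem_sdiff.1 hx

theorem st_rt {R : E.Nd} (hR : st_Rt E h R) : R ∈ E.Pa h 0 :=
  mem_filter.2 ⟨mem_univ _, hR.1.ge, by rw [hR.2, hR.1]; simp, by omega⟩

theorem st_fr : E.Fr (h + 1) ⊆ E.Pa h 0 := fun v hv => by
  obtain ⟨a1, a2⟩ := (mem_filter.1 hv).2
  exact mem_filter.2 ⟨mem_univ _, by omega, a2, by omega⟩

theorem st_not {R : E.Nd} (hR : R ∈ E.Fr (h + 1)) : ¬st_Rt E h R := fun a =>
  absurd (mem_filter.1 hR).2.1 a.1.not_gt

theorem st_m (hE : Ok E) (R : E.Nd) : E.m R.1 ≤ E.rk R := by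
  have a1 := (hE.len _ R.1.2).2.2.1
  have a2 : E.rl R.1 ≤ E.rk R := Nat.le_mul_of_pos_left _ (by positivity)
  omega

theorem st_log (hE : Ok E) (R : E.Nd) : Nat.log 2 R.2.1.length < E.L := by
  have a1 := R.2.2.trans_lt hE.hL
  rcases Nat.eq_zero_or_pos R.2.1.length with a | a
  · rw [a, Nat.log_zero_right]
    refine Nat.pos_of_ne_zero fun e => ?_
    have a2 := hE.hL
    have a3 := hE.one_le
    rw [e] at a2
    omega
  · exact Nat.log_lt_of_lt_pow a.ne' a1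

theorem st_card (hE : Ok E) (hF : ForStmt) :
    Fintype.card (Σ r, st_ky E h b r) < 2 ^ (4 * E.T + 4) ∧
      Fintype.card (E.Nd ⊕ Σ o : E.I, E.G o (h + 1)) < 2 ^ (4 * E.T + 4) := by
  obtain ⟨f1, f2, -⟩ := hF E hE
  constructor
  · rw [Fintype.card_sigma]
    refine (sum_le_card_nsmul _ _ (Fintype.card E.Nd) fun r _ => ?_).trans_lt ?_
    · rw [Fintype.card_coe]
      exact card_le_univ _
    · rw [smul_eq_mul, card_univ, show 4 * E.T + 4 = 2 * E.T + 2 + (2 * E.T + 2) by ring, pow_add]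
      exact Nat.mul_lt_mul'' f1 f1
  · rw [Fintype.card_sum, Fintype.card_sigma]
    have a1 : ∑ o : E.I, Fintype.card (E.G o (h + 1)) ≤ 2 ^ (E.T + 1) * 2 ^ E.T := by
      refine (sum_le_card_nsmul _ _ (2 ^ E.T) fun o _ => ?_).trans ?_
      · rw [Fintype.card_coe]
        exact hE.gc _ o.2 _
      · rw [smul_eq_mul, card_univ, Fintype.card_coe]
        exact Nat.mul_le_mul_right _ f2.le
    rw [← pow_add] at a1
    have a2 : 2 ^ (2 * E.T + 2) ≤ 2 ^ (4 * E.T + 3) := Nat.pow_le_pow_right two_pos (by omega)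
    have a3 : 2 ^ (E.T + 1 + E.T) ≤ 2 ^ (4 * E.T + 3) := Nat.pow_le_pow_right two_pos (by omega)
    rw [pow_succ]
    omega

theorem stepS (hR : RoundStmt) (hX : FixStmt) (hP : PullStmt) (hF : ForStmt) (hK : KeyStmt) :
    StepStmt := by
  classical
  intro E hE h hd b σ hI
  obtain ⟨-, -, f3, f4⟩ := hF E hE
  let p : (∀ r, st_ky E h b r) → Finset E.Nd → Finset E.Nd := fun κ O => pt (fun r => κ r) O
  have key := fun (κ : ∀ r, st_ky E h b r) => hK E hE h b σ (fun r => κ r) hI.hgt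
    fun r hr => st_mem hr (κ r).2
  have hmu : ∀ κ (R : E.Nd) O O', O ⊆ E.Pa h 0 → O' ⊆ E.Pa h 0 →
      (∀ r, E.rk r < E.rk R → (r ∈ O' ↔ r ∈ O)) → E.mu R.1 (σ (p κ O')) = E.mu R.1 (σ (p κ O)) :=
    fun κ R O O' a1 a2 e => hE.loc _ R.1.2 _ _ fun s hs =>
      (key κ O a1).2.1 O' a2 _ e s (hs.trans_le (st_m hE R))
  have hfix : ∀ (y : Finset E.Nd) κ, ∃ O : Finset E.Nd, ∀ R, R ∈ O ↔
      (R ∈ E.Fr (h + 1) ∧ R ∈ y) ∨
        (st_Rt E h R ∧ E.mu R.1 (σ (p κ (O ∩ E.Pa h 0))) = true) := fun y κ =>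
    hX E.Nd E.rk (fun R O => (R ∈ E.Fr (h + 1) ∧ R ∈ y) ∨
        (st_Rt E h R ∧ E.mu R.1 (σ (p κ (O ∩ E.Pa h 0))) = true))
      fun R O O' e => Or.imp_right (And.imp_right fun a =>
        (hmu κ R _ _ inter_subset_right inter_subset_right fun r hr => by
          rw [mem_inter, mem_inter, e r hr]).trans a)
  choose On hOn using hfix
  have rel : ∀ y κ, On y κ ⊆ E.Pa h 0 := fun y κ R hR =>
    ((hOn y κ R).1 hR).elim (fun a => st_fr a.1) fun a => st_rt a.1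
  have on : ∀ y κ R, R ∈ On y κ ↔ (R ∈ E.Fr (h + 1) ∧ R ∈ y) ∨
      (st_Rt E h R ∧ E.mu R.1 (σ (p κ (On y κ))) = true) := fun y κ R => by
    rw [hOn, inter_eq_left.2 (rel y κ)]
  have free : ∀ y κ, ∀ R ∈ E.Fr (h + 1), R ∈ On y κ ↔ R ∈ y := fun y κ R hR => by
    rw [on]
    exact ⟨fun a => a.elim (fun a => a.2) fun a => absurd a.1 (st_not hR), fun a => Or.inl ⟨hR, a⟩⟩
  have disj : ∀ r ∈ E.Pa h 0, ∀ r' ∈ E.Pa h 0, ∀ x ∈ st_ky E h b r, x ∈ st_ky E h b r' → r = r' :=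
    fun r a1 r' a2 x a3 a4 => f3 r r' x (st_mem a1 a3).1 (st_mem a2 a4).1
  have one : ∀ o ∈ E.I, h < E.lv o → ∀ g ∈ E.G o (h + 1),
      One b univ (E.T * zs E.T E.L h) fun y => g (σ y) = true := fun o ho h1 g hg =>
    (h31p.circS E.Nd b univ _ E.T σ (E.G o h) hI.bits (hI.gate o ho h1.le)).2 g
      (hE.gs o ho h h1 hd g hg)
  have pull := fun S f => hP E.Nd (st_ky E h b) (E.Pa h 0) b S (E.T * zs E.T E.L h) f disj
    fun r a1 x a2 => (st_mem a1 a2).2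
  let A : (E.Nd ⊕ Σ o : E.I, E.G o (h + 1)) → Finset E.Nd → (∀ r, st_ky E h b r) → Prop :=
    Sum.elim (fun R y κ => st_Rt E h R ∧ E.mu R.1 (σ (p κ (On y κ))) = true)
      fun g y κ => h < E.lv g.1 ∧ g.2.1 (σ (p κ (On y κ))) = true
  have hZ : zr (4 * E.T + E.L + 2 * (E.T * zs E.T E.L h) + 12) E.L ≤ zs E.T E.L (h + 1) :=
    Nat.le_mul_of_pos_left _ (zs_pos hE.one_le _ _)
  have hQ := hZ.trans ((zs_mono _ _ hd).trans hE.hQ)
  have hc : ∀ r ∈ E.Pa h 0, E.ft r ≤ (st_ky E h b r).card := fun r hr => by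
    rw [st_ky, if_pos hr]
    simpa using hI.fat r hr
  obtain ⟨κ, b', -, c1, c2, c3⟩ := hR E.Nd _ E.Nd (fun r => st_ky E h b r) (E.Fr (h + 1))
    (E.Pa h 0) (fun r => Nat.log 2 r.2.1.length) On A
    (Sum.elim (fun R => Nat.log 2 R.2.1.length) fun _ => E.L) (E.Pa (h + 1) 0) E.ch E.ft
    (E.T * zs E.T E.L h) (4 * E.T + E.L + 2 * (E.T * zs E.T E.L h) + 12) E.L (4 * E.T + 4) E.Q
    (E.Fr (h + 1))ᶜ
    ⟨free, rel, fun R hR => ⟨.inl R, le_rfl, fun y κ => (on y κ R).trans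
      (or_iff_right fun a => hR a.1)⟩, by
      rintro (R | ⟨o, g, hg⟩) y κ ⟨a1, a2⟩
      · have a3 := hE.top _ R.1.2 (a1.1.trans_le hd)
        rw [a1.1] at a3
        obtain ⟨c, b1, b2, b3, b4, b5⟩ := pull (univ.filter fun v => E.rk v < E.m R.1) _
          (one _ R.1.2 a1.1.ge _ a3) (fun y y' d1 d2 e d3 => (hE.loc _ R.1.2 _ _ fun s hs =>
            hI.hgt.loc y y' _ d1 d2 (fun v hv => e v (mem_filter.2 ⟨mem_univ _, hv⟩)) s hs).trans d3)
          κ _ (rel y κ) a2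
        have b6 : ∀ l : Σ r, st_ky E h b r, l.1 ∈ E.Pa h 0 →
            l.2.1 ∈ univ.filter (fun v => E.rk v < E.m R.1) →
            Nat.log 2 l.1.2.1.length < Nat.log 2 R.2.1.length := fun l d1 d2 => by
          obtain ⟨-, -, d3, d4, -⟩ := (f4 h).2 _ d1
          have d5 : E.rk l.2.1 = E.rk l.1 := by
            rw [Env.rk, Env.rk, (mem_filter.1 (st_mem d1 l.2.2).1).2.1]
          have d6 := (mem_filter.1 d2).2
          have d7 := (hE.len _ R.1.2).2.2.1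
          have d8 := Nat.log_mono_right (b := 2)
            (show l.1.2.1.length * 2 ≤ R.2.1.length by rw [a1.2, h22p.length_rt]; omega)
          rwa [Nat.log_mul_base (by norm_num) (by omega)] at d8
        exact ⟨c, b1, b2, fun l hl => ⟨b6 l (b3 l hl).1 (b3 l hl).2.1, (b3 l hl).2.2⟩,
          fun l hl => ⟨b6 l (b4 l hl).1 (b4 l hl).2.1, (b4 l hl).2.2⟩,
          fun y' κ' d1 d2 => ⟨a1, b5 κ' _ (rel y' κ') d1 d2⟩⟩
      · obtain ⟨c, b1, b2, b3, b4, b5⟩ := pull univ _ (one _ o.2 a1 _ hg)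
          (fun y y' _ _ e d3 => by rwa [show y' = y from ext fun v => e v (mem_univ v)])
          κ _ (rel y κ) a2
        exact ⟨c, b1, b2, fun l hl => ⟨st_log hE _, (b3 l hl).2.2⟩,
          fun l hl => ⟨st_log hE _, (b4 l hl).2.2⟩,
          fun y' κ' d1 d2 => ⟨a1, b5 κ' _ (rel y' κ') d1 d2⟩⟩⟩
    (by
      rintro (R | _)
      exacts [(st_log hE R).le, le_rfl])
    (fun r => by
      by_cases a : r ∈ E.Pa h 0
      · exact (card_pos.1 ((Nat.pow_pos two_pos).trans_le (hc r a))).to_subtype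
      · exact ⟨r, by rw [st_ky, if_neg a]; exact mem_singleton_self _⟩)
    (st_card hE hF).1 (st_card (b := b) hE hF).2 (by omega) hQ
    (fun r hr => by
      rw [Fintype.card_coe]
      exact (Nat.mul_le_mul_right _ hQ).trans (((f4 h).2 r hr).2.2.2.2.trans (hc r hr)))
    (fun π hπ => ((f4 (h + 1)).2 π hπ).1) (f4 (h + 1)).1
  have base : ∀ y, b ⊆ p κ (On y κ) := fun y => (key κ _ (rel y κ)).1
  refine ⟨b', fun y => σ (p κ (On y κ)), fun y _ => hI.agl _ (base y), ⟨fun y _ v hv =>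
    ((key κ _ (rel y κ)).2.2 v (st_fr hv)).1.trans (free y κ v hv), fun y y' t _ _ e =>
      (key κ _ (rel y κ)).2.1 _ (rel y' κ) t fun r hr => ?_⟩, fun s => ?_,
    fun y _ v hv a1 => ?_, fun o ho a1 g hg => ?_, c1⟩
  · induction hn : E.rk r using Nat.strong_induction_on generalizing r with
    | _ n ih =>
      rw [on, on, e r hr, hmu κ r _ _ (rel y κ) (rel y' κ) fun r' a =>
        ih _ (by omega) r' (by omega) rfl]
  · have a1 : ∀ x ∈ (univ : Finset E.Nd), Cert b' univ _ fun y => x ∈ p κ (On y κ) := fun x _ => by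
      by_cases a : ∃ r ∈ E.Pa h 0, (κ r).1 = x
      · obtain ⟨r, r1, rfl⟩ := a
        refine h31p.Step.cert_congr (h31p.Step.cert_not (c3 r)) fun y _ => ?_
        simp only [p, pt, mem_compl, mem_image]
        refine not_congr ⟨fun a => ⟨r, a, rfl⟩, fun ⟨r', a, e⟩ => ?_⟩
        rwa [disj r r1 r' (rel y κ a) _ (κ r).2 (e ▸ (κ r').2)]
      · refine h31p.Step.cert_congr (h31p.Step.cert_const True) fun y _ =>
          iff_of_true trivial (mem_compl.2 fun e => ?_)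
        obtain ⟨r, r1, r2⟩ := mem_image.1 e
        exact a ⟨r, rel y κ r1, r2⟩
    exact ⟨h31p.Step.one_comp (hI.bits s).1 (fun y _ => base y) a1,
      h31p.Step.one_comp (hI.bits s).2 (fun y _ => base y) a1⟩
  · rcases a1.lt_or_eq with a1 | a1
    · exact hI.code _ (base y) v hv (by omega)
    · let R : E.Nd := (⟨v, hv⟩, ⟨rt (E.rl v) 0, by
        rw [h22p.length_rt]
        exact (Nat.le_mul_of_pos_left _ (by positivity)).trans (hE.len v hv).2.2.2.2.2⟩)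
      have a2 : st_Rt E h R := ⟨a1, rfl⟩
      obtain ⟨a3, a4⟩ := (key κ _ (rel y κ)).2.2 R (st_rt a2)
      rw [Leg, a1, Nat.add_sub_cancel]
      refine ⟨Bool.eq_iff_iff.2 (a3.trans ((on y κ R).trans ?_)), fun w w' d1 d2 =>
        a4 w w' (d1.trans (by simp [R])) (d2.trans (by simp [R]))⟩
      exact ⟨fun a => a.elim (fun a => absurd a2 (st_not a.1)) fun a => a.2, fun a => Or.inr ⟨a2, a⟩⟩
  · exact cert_up (h31p.Step.cert_congr (c2 (.inr ⟨⟨o, ho⟩, g, hg⟩)) fun y _ =>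
      and_iff_right a1) Subset.rfl hZ

end Pool.Agent.MP_a2d820_lc.h31w
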