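import Pool.Agent.MP_a2d820_lc.h31w.Cnt
import Pool.Agent.MP_a2d820_lc.h31w.Core
import Pool.Agent.MP_a2d820_lc.h31w.Diag
import Pool.Agent.MP_a2d820_lc.h31w.For
import Pool.Agent.MP_a2d820_lc.h31w.Guard
import Pool.Agent.MP_a2d820_lc.h31w.Key
import Pool.Agent.MP_a2d820_lc.h31w.Lev
import Pool.Agent.MP_a2d820_lc.h31w.Loc
import Pool.Agent.MP_a2d820_lc.h31w.Prob
import Pool.Agent.MP_a2d820_lc.h31w.Round
import Pool.Agent.MP_a2d820_lc.h31w.Step
import Pool.Agent.MP_a2d820_lc.h31w.Tar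

/-!
All blocks together.
-/

set_option autoImplicit false

namespace Pool.Agent.MP_a2d820_lc.h31w

theorem round_all : RoundStmt :=
  roundS guardS tarS (botS idxS avgS) (levS idxS avgS nextS locS cntS upS)

theorem main_all : MainStmt :=
  mainS (coreS (baseS forS) (stepS round_all fixS pullS forS (keyS forS)) forS)

end Pool.Agent.MP_a2d820_lc.h31w
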