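import Pool.Agent.MP_a2d820_lc.h31w.Spec

/-!
Counting keys with long chains, counting indices, and pulling a certificate back to positions.
-/

set_option autoImplicit false

namespace Pool.Agent.MP_a2d820_lc.h31w

open Finset Pool.Agent.MP_a2d820_lc.h69
open Pool.Agent.MP_a2d820_lc.h31u (Ct Live Chain)
open Pool.Agent.MP_a2d820_lc.h31p (Pr One Cert Fat Agr pt nw rowOf Loc Env)

theorem cntS : CntStmt := by
  intro ι τ Key _ _ _ X h hq n J a B θ y S hS
  classical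
  refine le_trans (Nat.mul_le_mul_right _ (card_le_card fun κ hκ => ?_)) (h31u.card_chain (C := X.Cy a θ y) (D := X.D) h.inj
      (fun c hc => (h.small a c hc.1).2.1) (fun c hc => (h.small a c hc.1).2.2.1) J
      {R ∈ X.Rel | X.lev R = n} (fun κ => X.Cu n κ y) (fun κ => B ∪ X.Lo n κ y)
      (fun κ R hR => ?_) (fun κ κ' hκ => ?_) h.pos fun R hR => ?_)
  · simp only [mem_filter, mem_univ, true_and]
    exact hS κ hκ
  · exact mem_filter.2 ⟨h.rel y κ (mem_filter.1 hR).1, (mem_filter.1 hR).2⟩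
  · have e := h.loc y n κ κ' fun R k => hκ R fun k' => k.ne (mem_filter.1 k').2
    refine ⟨?_, congrArg (B ∪ ·) ?_⟩
    · ext R
      simp only [Dat.Cu, mem_filter]
      exact and_congr_left fun k => e R k.le
    · ext R
      simp only [Dat.Lo, mem_filter]
      exact and_congr_left fun k => e R k.le
  · rw [← (mem_filter.1 hR).2]
    exact hq R (mem_filter.1 hR).1

theorem idxS : IdxStmt := by
  intro ι τ _ _ _ M β D N h1 h2 h3
  refine ⟨univ ×ˢ (({P : Finset ι | P.card ≤ β} : Finset _) ×ˢ range (N + 1)), ?_,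
    fun a B θ => by simp⟩
  have h4 := h31u.card_small h2 β
  have h5 : N + 1 ≤ 2 ^ ((M + 1) * (2 * D)) * 2 := by
    have : 0 < 2 ^ ((M + 1) * (2 * D)) := by positivity
    omega
  rw [card_product, card_product, card_univ, card_range, mul_add (M + 1), pow_succ, pow_add, pow_add,
    mul_assoc, mul_assoc]
  exact Nat.mul_le_mul h1.le (Nat.mul_le_mul h4 h5)

theorem cn_pt {V : Type} [Fintype V] [DecidableEq V] {K : V → Finset V} (κ : ∀ r, K r)
    (O : Finset V) (v : V) : v ∈ pt (fun r => (κ r : V)) O ↔ ¬∃ r ∈ O, (κ r : V) = v := by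
  simp only [pt, mem_compl, mem_image]

theorem pullS : PullStmt := by
  intro V _ _ K Rel b S t f hK hb h1 hS κ O hO hf
  classical
  have hp : ∀ (κ : ∀ r, K r) (O : Finset V), O ⊆ Rel → b ⊆ pt (fun r => (κ r : V)) O :=
    fun κ O hO v hv => (cn_pt κ O v).2 fun ⟨r, a1, a2⟩ => hb r (hO a1) _ (κ r).2 (a2 ▸ hv)
  obtain ⟨D, -, a2, a3⟩ := h1 _ (hp κ O hO) hf
  have hc : ∀ T : Finset (Σ r, K r), (∀ l ∈ T, l.1 ∈ Rel ∧ l.2.1 ∈ D) → T.card ≤ t := by
    intro T hT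
    refine (card_le_card_of_injOn (fun l => l.2.1) (fun l hl => (hT l hl).2) ?_).trans a2
    rintro ⟨r, x, hx⟩ hl ⟨r', x', hx'⟩ hl' e
    obtain rfl : x = x' := e
    obtain rfl : r = r' := hK r (hT _ hl).1 r' (hT _ hl').1 x hx hx'
    rfl
  refine ⟨(univ.filter fun l : Σ r, K r => l.1 ∈ Rel ∧ l.2.1 ∈ D ∧ l.2.1 ∈ S ∧ Bit O κ l,
      univ.filter fun l : Σ r, K r => l.1 ∈ Rel ∧ l.2.1 ∈ D ∧ l.2.1 ∈ S ∧ ¬Bit O κ l),
    hc _ fun l hl => ⟨(mem_filter.1 hl).2.1, (mem_filter.1 hl).2.2.1⟩,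
    hc _ fun l hl => ⟨(mem_filter.1 hl).2.1, (mem_filter.1 hl).2.2.1⟩,
    fun l hl => ⟨(mem_filter.1 hl).2.1, (mem_filter.1 hl).2.2.2⟩,
    fun l hl => ⟨(mem_filter.1 hl).2.1, (mem_filter.1 hl).2.2.2⟩, fun κ' O' hO' c1 c2 => ?_⟩
  have e : ∀ v ∈ D, v ∈ S →
      (v ∈ pt (fun r => (κ' r : V)) O' ↔ v ∈ pt (fun r => (κ r : V)) O) := by
    intro v hv hv'
    rw [cn_pt, cn_pt]
    refine not_congr ⟨?_, ?_⟩
    · rintro ⟨r, b1, rfl⟩
      by_contra q
      refine c2 ⟨r, κ' r⟩ (mem_filter.2 ⟨mem_univ _, hO' b1, hv, hv', fun k => ?_⟩) ⟨rfl, b1⟩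
      exact q ⟨r, k.2, congrArg Subtype.val k.1⟩
    · rintro ⟨r, b1, rfl⟩
      have k := c1 ⟨r, κ r⟩ (mem_filter.2 ⟨mem_univ _, hO b1, hv, hv', rfl, b1⟩)
      exact ⟨r, k.2, congrArg Subtype.val k.1⟩
  have hy : b ⊆ (pt (fun r => (κ' r : V)) O' ∩ S) ∪ (pt (fun r => (κ r : V)) O \ S) := by
    intro v hv
    by_cases k : v ∈ S
    · exact mem_union_left _ (mem_inter.2 ⟨hp κ' O' hO' hv, k⟩)
    · exact mem_union_right _ (mem_sdiff.2 ⟨hp κ O hO hv, k⟩)
  refine hS _ _ hy (hp κ' O' hO') (fun v k => ?_) (a3 _ hy fun v hv => ?_)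
  · simp only [mem_union, mem_inter, mem_sdiff, k, and_true, not_true, and_false, or_false]
  · by_cases k : v ∈ S
    · simp only [mem_union, mem_inter, mem_sdiff, k, and_true, not_true, and_false, or_false]
      exact e v hv k
    · simp only [mem_union, mem_inter, mem_sdiff, k, and_false, not_false_iff, and_true, false_or]

end Pool.Agent.MP_a2d820_lc.h31w
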