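import Pool.Agent.MP_a2d820_lc.h22.W1

/-!
Statements of the blocks of the construction of an oracle with unambiguous codes at all levels.
-/

set_option autoImplicit false

namespace Pool.Agent.MP_a2d820_lc.h31w

open Finset Pool.Agent.MP_a2d820_lc.h69
open Pool.Agent.MP_a2d820_lc.h31u (Ct Live Chain)
open Pool.Agent.MP_a2d820_lc.h31p (Pr One Cert Fat Agr pt nw rowOf Loc Env)
open Pool.Agent.MP_a2d820_lc.h70 (Agl Ac)
open Pool.Agent.MP_a2d820_lc.h22p (rt gw)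
open Pool.Agent.MP_a2d820_lc.h22 (RelUP)

section Abs

variable {ι τ : Type} {Key : ι → Type}

/-- The position `l` holds a mark: it is the key of a region that is on. -/
def Bit (O : Finset ι) (κ : ∀ R, Key R) (l : Σ R, Key R) : Prop := κ l.1 = l.2 ∧ l.1 ∈ O

/-- Regions with keys and targets that have small certificates over the lower levels. -/
structure Rs (Fr Rel : Finset ι) (lev : ι → ℕ) (On : Finset ι → (∀ R, Key R) → Finset ι)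
    (A : τ → Finset ι → (∀ R, Key R) → Prop) (tl : τ → ℕ) (t : ℕ) : Prop where
  free : ∀ y κ, ∀ R ∈ Fr, R ∈ On y κ ↔ R ∈ y
  rel : ∀ y κ, On y κ ⊆ Rel
  reg : ∀ R, R ∉ Fr → ∃ a, tl a ≤ lev R ∧ ∀ y κ, R ∈ On y κ ↔ A a y κ
  sys : ∀ a y κ, A a y κ → ∃ c : Ct Key, c.1.card ≤ t ∧ c.2.card ≤ t ∧
    (∀ l ∈ c.1, lev l.1 < tl a ∧ Bit (On y κ) κ l) ∧
    (∀ l ∈ c.2, lev l.1 < tl a ∧ ¬Bit (On y κ) κ l) ∧
    ∀ y' κ', (∀ l ∈ c.1, Bit (On y' κ') κ' l) → (∀ l ∈ c.2, ¬Bit (On y' κ') κ' l) → A a y' κ'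

/-- The data of a round. -/
structure Dat (ι τ : Type) (Key : ι → Type) where
  Fr : Finset ι
  Rel : Finset ι
  lev : ι → ℕ
  On : Finset ι → (∀ R, Key R) → Finset ι
  A : τ → Finset ι → (∀ R, Key R) → Prop
  tl : τ → ℕ
  G : τ → Set (Ct Key)
  rk : Ct Key → ℕ
  D : ℕ
  N : ℕ

namespace Dat

variable (X : Dat ι τ Key)

/-- The guards `G a` are small, sound and complete for the target `a`. -/
structure Ok : Prop where
  free : ∀ y κ, ∀ R ∈ X.Fr, R ∈ X.On y κ ↔ R ∈ y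
  rel : ∀ y κ, X.On y κ ⊆ X.Rel
  reg : ∀ R, R ∉ X.Fr → ∃ a, X.tl a ≤ X.lev R ∧ ∀ y κ, R ∈ X.On y κ ↔ X.A a y κ
  loc : ∀ y n κ κ', (∀ R, X.lev R < n → κ R = κ' R) →
    ∀ R, X.lev R ≤ n → (R ∈ X.On y κ ↔ R ∈ X.On y κ')
  small : ∀ a, ∀ c ∈ X.G a, c.1.card ≤ X.D ∧ c.2.card ≤ X.D ∧ Disjoint c.1 c.2 ∧ X.rk c < X.N ∧
    ∀ l ∈ c.2, X.lev l.1 < X.tl a
  sound : ∀ a, ∀ c ∈ X.G a, ∀ y κ, (∀ l ∈ c.1, κ l.1 = l.2 ∧ (l.1 ∈ X.Fr → l.1 ∈ y)) →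
    (∀ l ∈ c.2, ¬Bit (X.On y κ) κ l) → X.A a y κ
  compl : ∀ a y κ, X.A a y κ → ∃ c ∈ X.G a, (∀ l ∈ c.1, Bit (X.On y κ) κ l) ∧
    ∀ l ∈ c.2, ¬Bit (X.On y κ) κ l
  inj : Function.Injective X.rk
  pos : 1 ≤ X.D

/-- The guards of rank below `θ` whose free regions are on at `y`. -/
def Cy (a : τ) (θ : ℕ) (y : Finset ι) : Set (Ct Key) :=
  {c | c ∈ X.G a ∧ X.rk c < θ ∧ ∀ l ∈ c.1, l.1 ∈ X.Fr → l.1 ∈ y}

/-- The regions of level below `n` that are on. -/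
def Lo (n : ℕ) (κ : ∀ R, Key R) (y : Finset ι) : Finset ι :=
  (X.On y κ).filter fun R => X.lev R < n

/-- The regions of level `n` that are on. -/
def Cu (n : ℕ) (κ : ∀ R, Key R) (y : Finset ι) : Finset ι :=
  (X.On y κ).filter fun R => X.lev R = n

variable [DecidableEq ι]

/-- Some guard is hit neither in `B` nor in a region of level below `n` that is on. -/
def Gv (n : ℕ) (a : τ) (B : Finset ι) (θ : ℕ) (κ : ∀ R, Key R) (y : Finset ι) : Prop :=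
  ∃ c, Live (X.Cy a θ y) κ (B ∪ X.Lo n κ y) c

/-- A chain of `J` hits at level `n`. -/
def Chn (n J : ℕ) (a : τ) (B : Finset ι) (θ : ℕ) (κ : ∀ R, Key R) (y : Finset ι) : Prop :=
  ∃ S, Chain (X.Cy a θ y) X.rk (X.Cu n κ y) κ J (B ∪ X.Lo n κ y) S

variable [Fintype ι]

/-- Negative certificates for all small sets `B` and all thresholds. -/
def Nn (n β e : ℕ) (κ : ∀ R, Key R) (b : Finset ι) : Prop :=
  ∀ a B θ, B.card ≤ β → θ ≤ X.N → One b univ e fun y => ¬X.Gv n a B θ κ y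

/-- Certificates for the regions of level below `n`. -/
def Rn (n e : ℕ) (κ : ∀ R, Key R) (b : Finset ι) : Prop :=
  ∀ R, X.lev R < n → Cert b univ e fun y => R ∈ X.On y κ

end Dat

theorem one_up {V : Type} {b b' S : Finset V} {c c' : ℕ} {f : Finset V → Prop} (h : One b S c f)
    (hb : b ⊆ b') (hc : c ≤ c') : One b' S c' f := fun y h1 h2 =>
  let ⟨D, a1, a2, a3⟩ := h y (hb.trans h1) h2
  ⟨D, a1, a2.trans hc, fun y' h3 h4 => a3 y' (hb.trans h3) h4⟩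

theorem cert_up {V : Type} {b b' S : Finset V} {c c' : ℕ} {f : Finset V → Prop} (h : Cert b S c f)
    (hb : b ⊆ b') (hc : c ≤ c') : Cert b' S c' f := ⟨one_up h.1 hb hc, one_up h.2 hb hc⟩

theorem Dat.Nn.up [DecidableEq ι] [Fintype ι] {X : Dat ι τ Key} {n β e e' : ℕ} {κ : ∀ R, Key R}
    {b b' : Finset ι} (h : X.Nn n β e κ b) (hb : b ⊆ b') (he : e ≤ e') : X.Nn n β e' κ b' :=
  fun a B θ h1 h2 => one_up (h a B θ h1 h2) hb he

theorem Dat.Rn.up [Fintype ι] {X : Dat ι τ Key} {n e e' : ℕ} {κ : ∀ R, Key R}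
    {b b' : Finset ι} (h : X.Rn n e κ b) (hb : b ⊆ b') (he : e ≤ e') : X.Rn n e' κ b' :=
  fun R h1 => cert_up (h R h1) hb he

end Abs

/-- Guards exist. -/
def GuardStmt : Prop :=
  ∀ (ι τ : Type) (Key : ι → Type) [Fintype ι] [DecidableEq ι] [∀ R, Fintype (Key R)]
    (Fr Rel : Finset ι) (lev : ι → ℕ) (On : Finset ι → (∀ R, Key R) → Finset ι)
    (A : τ → Finset ι → (∀ R, Key R) → Prop) (tl : τ → ℕ) (t g L M : ℕ),
    Rs Fr Rel lev On A tl t → (∀ a, tl a ≤ L) → 2 * t ≤ g → 1 ≤ g →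
    Fintype.card (Σ R, Key R) < 2 ^ M →
    ∃ G rk N, Dat.Ok ⟨Fr, Rel, lev, On, A, tl, G, rk, g ^ (L + 1), N⟩ ∧
      N ≤ 2 ^ ((M + 1) * (2 * g ^ (L + 1)))

/-- Certificates of the targets and of the regions of the next level. -/
def TarStmt : Prop :=
  ∀ (ι τ : Type) (Key : ι → Type) [Fintype ι] [DecidableEq ι] (X : Dat ι τ Key), X.Ok →
    ∀ (n β e : ℕ) (κ : ∀ R, Key R) (b : Finset ι), 1 ≤ e → X.Nn n β e κ b → X.Rn n e κ b →
    (∀ a, X.tl a ≤ n → Cert b univ (2 * X.D * e) fun y => X.A a y κ) ∧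
      X.Rn (n + 1) (2 * X.D * e) κ b

/-- Without long chains the negative certificates pass to the next level. -/
def NextStmt : Prop :=
  ∀ (ι τ : Type) (Key : ι → Type) [Fintype ι] [DecidableEq ι] (X : Dat ι τ Key), X.Ok →
    ∀ (n β β' e r J : ℕ) (κ : ∀ R, Key R) (b : Finset ι), X.Nn n β e κ b → X.Rn (n + 1) r κ b →
    β' + J * (X.D + 1) ≤ β →
    (∀ a B θ y, B.card ≤ β' → θ ≤ X.N → b ⊆ y → ¬X.Chn n J a B θ κ y) →
    X.Nn (n + 1) β' (e + J * (X.D + 1) * r) κ b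

/-- A chain has a small certificate. -/
def LocStmt : Prop :=
  ∀ (ι τ : Type) (Key : ι → Type) [Fintype ι] [DecidableEq ι] (X : Dat ι τ Key), X.Ok →
    ∀ (n β e r J : ℕ) (κ : ∀ R, Key R) (b : Finset ι), X.Nn n β e κ b → X.Rn (n + 1) r κ b →
    ∀ a B θ, B.card + J * (X.D + 1) ≤ β → θ ≤ X.N →
    One b univ (J * (X.D + 2 * X.D * r + e)) fun y => X.Chn n J a B θ κ y

/-- At a fixed point few keys have a long chain. -/
def CntStmt : Prop :=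
  ∀ (ι τ : Type) (Key : ι → Type) [Fintype ι] [DecidableEq ι] [∀ R, Fintype (Key R)]
    (X : Dat ι τ Key), X.Ok →
    (∀ R ∈ X.Rel, 2 * X.D * #{R' ∈ X.Rel | X.lev R' = X.lev R} ≤ Fintype.card (Key R)) →
    ∀ (n J : ℕ) a B θ y (S : Finset (∀ R, Key R)), (∀ κ ∈ S, X.Chn n J a B θ κ y) →
    S.card * 2 ^ J ≤ Fintype.card (∀ R, Key R)

/-- An event with small certificates rarely appears above a random point. -/
def UpStmt : Prop :=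
  ∀ (V : Type) [Fintype V] [DecidableEq V] (q : ℝ) (b : Finset V) (σ : ℕ) (f : Finset V → Prop),
    0 < q → q ≤ 1 / 2 → 8 * q * σ ≤ 1 → One b univ σ f →
    Pr q (fun z => ∃ y, b ∪ z ⊆ y ∧ f y) ≤ 2 * Pr q fun z => f (b ∪ z)

/-- The choice of the next base point. -/
def AvgStmt : Prop :=
  ∀ (V ι Ω : Type) [Fintype V] [DecidableEq V] [Fintype Ω] (P : Finset ι) (C : ι → Finset V)
    (f : ι → ℕ) (Q s : ℕ) (b : Finset V) (E : Ω → Finset V → Prop) (ε : ℝ), 8 ≤ Q →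
    (∀ π ∈ P, 2 * P.card ≤ 2 ^ f π) → Fat P C f Q (s + 1) b →
    ∑ κ, Pr (4 / (Q : ℝ)) (fun z => E κ (b ∪ z)) ≤ ε →
    ∃ b', b ⊆ b' ∧ Fat P C f Q s b' ∧
      ∃ B : Finset Ω, (B.card : ℝ) ≤ 2 * ε ∧ ∀ κ, E κ b' → κ ∈ B

/-- The number of triples of a target, a small set and a threshold. -/
def IdxStmt : Prop :=
  ∀ (ι τ : Type) [Fintype ι] [DecidableEq ι] [Fintype τ] (M β D N : ℕ),
    Fintype.card τ < 2 ^ M → Fintype.card ι < 2 ^ M → N ≤ 2 ^ ((M + 1) * (2 * D)) →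
    ∃ I : Finset (τ × Finset ι × ℕ), I.card ≤ 2 ^ (M + (M + 1) * (β + 2 * D) + 1) ∧
      ∀ a B θ, (a, B, θ) ∈ I ↔ B.card ≤ β ∧ θ ≤ N

/-- The lowest level. -/
def BotStmt : Prop :=
  ∀ (ι τ ι' : Type) (Key : ι → Type) [Fintype ι] [DecidableEq ι] [Fintype τ]
    [∀ R, Fintype (Key R)] (X : Dat ι τ Key), X.Ok →
    ∀ (P : Finset ι') (C : ι' → Finset ι) (f : ι' → ℕ) (M Q s β e j : ℕ) (b : Finset ι),
    Fintype.card τ < 2 ^ M → Fintype.card ι < 2 ^ M → X.N ≤ 2 ^ ((M + 1) * (2 * X.D)) →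
    8 * X.D ≤ Q → X.D ≤ e → M + (M + 1) * (β + 2 * X.D) + 1 + j ≤ e →
    (∀ π ∈ P, 2 * P.card ≤ 2 ^ f π) → Fat P C f Q (s + 1) b →
    ∃ b', b ⊆ b' ∧ Fat P C f Q s b' ∧ ∃ Bad : Finset (∀ R, Key R),
      Bad.card * 2 ^ j ≤ 2 * Fintype.card (∀ R, Key R) ∧ ∀ κ, κ ∉ Bad → X.Nn 0 β e κ b'

/-- From one level to the next. -/
def LevStmt : Prop :=
  ∀ (ι τ ι' : Type) (Key : ι → Type) [Fintype ι] [DecidableEq ι] [Fintype τ]
    [∀ R, Fintype (Key R)] (X : Dat ι τ Key), X.Ok →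
    ∀ (P : Finset ι') (C : ι' → Finset ι) (f : ι' → ℕ) (M Q s n β β' e r J j : ℕ) (b : Finset ι)
    (Bad : Finset (∀ R, Key R)),
    Fintype.card τ < 2 ^ M → Fintype.card ι < 2 ^ M → X.N ≤ 2 ^ ((M + 1) * (2 * X.D)) →
    (∀ R ∈ X.Rel, 2 * X.D * #{R' ∈ X.Rel | X.lev R' = X.lev R} ≤ Fintype.card (Key R)) →
    8 ≤ Q → 32 * (J * (X.D + 2 * X.D * r + e)) ≤ Q → β' + J * (X.D + 1) ≤ β →
    M + (M + 1) * (β' + 2 * X.D) + 1 + j ≤ J →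
    (∀ π ∈ P, 2 * P.card ≤ 2 ^ f π) → Fat P C f Q (s + 1) b →
    (∀ κ, κ ∉ Bad → X.Nn n β e κ b ∧ X.Rn (n + 1) r κ b) →
    ∃ b', b ⊆ b' ∧ Fat P C f Q s b' ∧ ∃ Bad' : Finset (∀ R, Key R),
      Bad'.card * 2 ^ j ≤ 4 * Fintype.card (∀ R, Key R) ∧
      ∀ κ, κ ∉ Bad → κ ∉ Bad' → X.Nn (n + 1) β' (e + J * (X.D + 1) * r) κ b'

/-- The size of the certificates after a round. -/
def zr (g L : ℕ) : ℕ := g ^ (3 * (L + 3) ^ 3)

/-- One round. -/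
def RoundStmt : Prop :=
  ∀ (ι τ ι' : Type) (Key : ι → Type) [Fintype ι] [DecidableEq ι] [Fintype τ]
    [∀ R, Fintype (Key R)] (Fr Rel : Finset ι) (lev : ι → ℕ)
    (On : Finset ι → (∀ R, Key R) → Finset ι) (A : τ → Finset ι → (∀ R, Key R) → Prop)
    (tl : τ → ℕ) (P : Finset ι') (C : ι' → Finset ι) (f : ι' → ℕ) (t g L M Q : ℕ)
    (b₀ : Finset ι), Rs Fr Rel lev On A tl t → (∀ a, tl a ≤ L) → (∀ R, Nonempty (Key R)) →
    Fintype.card (Σ R, Key R) < 2 ^ M → Fintype.card τ < 2 ^ M → M + L + 2 * t + 8 ≤ g →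
    zr g L ≤ Q → (∀ R ∈ Rel, zr g L * #{R' ∈ Rel | lev R' = lev R} ≤ Fintype.card (Key R)) →
    (∀ π ∈ P, 2 * P.card ≤ 2 ^ f π) → Fat P C f Q (L + 1) b₀ →
    ∃ κ b, b₀ ⊆ b ∧ Fat P C f Q 0 b ∧ (∀ a, Cert b univ (zr g L) fun y => A a y κ) ∧
      ∀ R, Cert b univ (zr g L) fun y => R ∈ On y κ

/-- Definitions by recursion on a level. -/
def FixStmt : Prop :=
  ∀ (ι : Type) [Fintype ι] (lev : ι → ℕ) (Φ : ι → Finset ι → Prop),
    (∀ R O O', (∀ R', lev R' < lev R → (R' ∈ O' ↔ R' ∈ O)) → Φ R O → Φ R O') →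
    ∃ O : Finset ι, ∀ R, R ∈ O ↔ Φ R O

/-- A certificate at the old point is a set of marked and unmarked positions. -/
def PullStmt : Prop :=
  ∀ (V : Type) [Fintype V] [DecidableEq V] (K : V → Finset V) (Rel b S : Finset V) (t : ℕ)
    (f : Finset V → Prop), (∀ r ∈ Rel, ∀ r' ∈ Rel, ∀ x ∈ K r, x ∈ K r' → r = r') →
    (∀ r ∈ Rel, ∀ x ∈ K r, x ∉ b) → One b univ t f →
    (∀ y y', b ⊆ y → b ⊆ y' → (∀ v ∈ S, v ∈ y' ↔ v ∈ y) → f y → f y') →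
    ∀ (κ : ∀ r, K r) (O : Finset V), O ⊆ Rel → f (pt (fun r => κ r) O) →
    ∃ c : Ct fun r => K r, c.1.card ≤ t ∧ c.2.card ≤ t ∧
      (∀ l ∈ c.1, l.1 ∈ Rel ∧ l.2.1 ∈ S ∧ Bit O κ l) ∧
      (∀ l ∈ c.2, l.1 ∈ Rel ∧ l.2.1 ∈ S ∧ ¬Bit O κ l) ∧
      ∀ (κ' : ∀ r, K r) (O' : Finset V), O' ⊆ Rel → (∀ l ∈ c.1, Bit O' κ' l) →
        (∀ l ∈ c.2, ¬Bit O' κ' l) → f (pt (fun r => κ' r) O')

/-- The root of the tree of height `k + 1` has the value `c` and at most one false child. -/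
def Lw (r k : ℕ) (a : Lang) (c : Bool) : Prop :=
  nw (k + 1) a (rt r 0) = c ∧ ∀ w w' : List Bool, w.length = 8 * r → w'.length = 8 * r →
    nw k a (w ++ rt r 0) = false → nw k a (w' ++ rt r 0) = false → w = w'

theorem Lw.congr {r k : ℕ} {a a' : Lang} {c : Bool} (h : Lw r k a c)
    (e : ∀ j : List Bool, j.length = 9 ^ (k + 1) * r → a j = a' j) : Lw r k a' c := by
  have e1 : ∀ w : List Bool, w.length = 8 * r → nw k a' (w ++ rt r 0) = nw k a (w ++ rt r 0) :=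
    fun w hw => h22p.nw_suffix fun v hv => (e _ (by
      rw [List.length_append, hv, List.length_append, hw, h22p.length_rt, pow_succ]
      ring)).symm
  refine ⟨(h22p.nw_suffix fun v hv => (e _ ?_).symm).trans h.1, fun w w' a1 a2 a3 a4 =>
    h.2 w w' a1 a2 (by rwa [← e1 w a1]) (by rwa [← e1 w' a2])⟩
  rw [List.length_append, hv, h22p.length_rt]

/-- Both values have a pattern. -/
def PatStmt : Prop := ∀ (r k : ℕ) (c : Bool), ∃ a : Lang, Lw r k a c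

/-- The size of the certificates at height `h`. -/
def zs (T L : ℕ) : ℕ → ℕ
  | 0 => T
  | h + 1 => zs T L h * zr (4 * T + L + 2 * (T * zs T L h) + 12) L

theorem zs_pos {T : ℕ} (hT : 1 ≤ T) (L h : ℕ) : 1 ≤ zs T L h := by
  induction h with
  | zero => exact hT
  | succ h ih => exact Nat.mul_pos ih (Nat.pow_pos (by omega))

theorem zs_mono (T L : ℕ) : Monotone (zs T L) :=
  monotone_nat_of_le_succ fun _ => Nat.le_mul_of_pos_right _ (Nat.pow_pos (by omega))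

/-- The row `v` stores the right bit and its witness is unique. -/
def Leg (E : Env) (A : Lang) (v : List Bool) : Prop :=
  Lw (E.rl v) (E.lv v - 1) (rowOf A v) (E.mu v A)

/-- The hypotheses on the data of a stage. -/
structure Ok (E : Env) : Prop where
  len : ∀ u ∈ E.I, E.n ≤ u.length ∧ E.a ≤ E.rl u ∧ 2 * E.m u ≤ E.rl u ∧ u.length ≤ E.rl u ∧
    1 ≤ E.lv u ∧ 9 ^ E.lv u * E.rl u ≤ E.T
  g0 : ∀ u ∈ E.I, ∀ g ∈ E.G u 0, DT E.T g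
  gs : ∀ u ∈ E.I, ∀ i, i < E.lv u → i < E.d → ∀ g ∈ E.G u (i + 1),
    IsOr ((E.G u i : Set _) ∪ {g | DT 1 g}) E.T g
  gc : ∀ u ∈ E.I, ∀ i, (E.G u i).card ≤ 2 ^ E.T
  top : ∀ u ∈ E.I, E.lv u ≤ E.d → E.mu u ∈ E.G u (E.lv u)
  loc : ∀ u ∈ E.I, Loc (E.m u) (E.mu u)
  ha : 1 ≤ E.a
  hL : E.T < 2 ^ E.L
  hQ : zs E.T E.L E.d ≤ E.Q
  pow : E.Q ^ (E.L + 1) ≤ 2 ^ E.a
  hT : 2 * E.T + 3 ≤ 2 ^ E.a
  hx : E.x ∈ E.I ∧ E.lv E.x = E.d + 1

theorem Ok.one_le {E : Env} (h : Ok E) : 1 ≤ E.T := by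
  obtain ⟨-, a1, -, -, -, a2⟩ := h.len _ h.hx.1
  exact (Nat.mul_pos (by positivity) (h.ha.trans a1)).trans_le a2

/-- The invariant after the round `h`. -/
structure Inv (E : Env) (h : ℕ) (b : Finset E.Nd) (σ : Finset E.Nd → Lang) : Prop where
  agl : ∀ y, b ⊆ y → Agl E.n E.A₀ (σ y)
  hgt : E.Hgt h b σ
  bits : ∀ s, Cert b univ (zs E.T E.L h) fun y => σ y s = true
  code : ∀ y, b ⊆ y → ∀ v ∈ E.I, E.lv v ≤ h → Leg E (σ y) v
  gate : ∀ o ∈ E.I, h ≤ E.lv o → ∀ g ∈ E.G o h,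
    Cert b univ (zs E.T E.L h) fun y => g (σ y) = true
  fat : Fat (E.Pa h 0) E.ch E.ft E.Q 0 b

/-- Counting facts about the forest. -/
def ForStmt : Prop :=
  ∀ E : Env, Ok E → Fintype.card E.Nd < 2 ^ (2 * E.T + 2) ∧ E.I.card < 2 ^ (E.T + 1) ∧
    (∀ π π' v, v ∈ E.ch π → v ∈ E.ch π' → π = π') ∧ ∀ h : ℕ,
    Fat (E.Pa h 0) E.ch E.ft E.Q (E.L + 1) (E.Fr h)ᶜ ∧ ∀ π ∈ E.Pa h 0,
      2 * (E.Pa h 0).card ≤ 2 ^ E.ft π ∧ E.Q < E.ft π ∧ 1 ≤ π.2.1.length ∧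
      π.2.1.length ≤ E.rk π ∧ E.Q *
        #{π' ∈ E.Pa h 0 | Nat.log 2 π'.2.1.length = Nat.log 2 π.2.1.length} ≤ E.ft π

/-- The values of the nodes one level up are read off the set of regions that are on. -/
def KeyStmt : Prop :=
  ∀ E : Env, Ok E → ∀ (h : ℕ) (b : Finset E.Nd) (σ : Finset E.Nd → Lang) (κ : E.Nd → E.Nd),
    E.Hgt h b σ → (∀ r ∈ E.Pa h 0, κ r ∈ E.ch r ∧ κ r ∉ b) → ∀ O ⊆ E.Pa h 0,
    b ⊆ pt κ O ∧
    (∀ O' ⊆ E.Pa h 0, ∀ t, (∀ r, E.rk r < t → (r ∈ O' ↔ r ∈ O)) →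
      ∀ s : List Bool, s.length < t → σ (pt κ O') s = σ (pt κ O) s) ∧
    ∀ π ∈ E.Pa h 0, (nw (h + 1) (rowOf (σ (pt κ O)) π.1) π.2.1 = true ↔ π ∈ O) ∧
      ∀ w w' : List Bool, w.length = 8 * π.2.1.length → w'.length = 8 * π.2.1.length →
        nw h (rowOf (σ (pt κ O)) π.1) (w ++ π.2.1) = false →
        nw h (rowOf (σ (pt κ O)) π.1) (w' ++ π.2.1) = false → w = w'

/-- The leaves. -/
def BaseStmt : Prop := ∀ E : Env, Ok E → ∃ b σ, Inv E 0 b σ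

/-- A round with keys. -/
def StepStmt : Prop :=
  ∀ E : Env, Ok E → ∀ h < E.d, ∀ b σ, Inv E h b σ → ∃ b' σ', Inv E (h + 1) b' σ'

/-- The combinatorial core of a stage. -/
def CoreStmt : Prop :=
  ∀ E : Env, Ok E → ∀ f ∈ E.G E.x E.d, ∃ A, Agl E.n E.A₀ A ∧ (∀ v ∈ E.I, v ≠ E.x → Leg E A v) ∧
    f A ≠ nw (E.d + 1) (rowOf A E.x) (rt (E.rl E.x) 0)

/-- The question of a row is a small local circuit. -/
def Sml (lv β : List Bool → ℕ) (mu : List Bool → Lang → Bool) (u : List Bool) : Prop :=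
  1 ≤ lv u ∧ 2 * β u ≤ u.length ∧ mu u ∈ Ac (β u) (lv u) ∧ Loc (β u) (mu u)

/-- The rows in `J` are right. -/
def Lg (lv : List Bool → ℕ) (mu : List Bool → Lang → Bool) (J : Set (List Bool)) (A : Lang) :
    Prop := ∀ u ∈ J, Lw u.length (lv u - 1) (rowOf A u) (mu u A)

/-- Rows can be made right by writing their leaves only. -/
def CmpStmt : Prop :=
  ∀ (lv β : List Bool → ℕ) (mu : List Bool → Lang → Bool) (J : Set (List Bool)) (A : Lang),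
    (∀ u ∈ J, Sml lv β mu u) → ∃ A' : Lang, (∀ s, (¬∃ u ∈ J, ∃ j : List Bool,
      j.length = 9 ^ lv u * u.length ∧ s = ad u j 0) → A' s = A s) ∧ Lg lv mu J A'

/-- The numbers of a stage. -/
def NumStmt : Prop :=
  ∀ (B : Polynomial ℕ) (d m : ℕ), ∃ n L, m ≤ n ∧ B.eval n < 2 ^ L ∧
    zs (B.eval n) L d ^ (L + 1) ≤ 2 ^ n ∧ 2 * B.eval n + 3 ≤ 2 ^ n

/-- One diagonal stage. -/
def DiagStmt : Prop :=
  ∀ (P : Polynomial ℕ) (d m : ℕ), ∃ n, m ≤ n ∧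
    ∀ (lv β : List Bool → ℕ) (mu : List Bool → Lang → Bool) (Act : Set (List Bool)) (A₀ : Lang)
      (f : Lang → Bool), (∀ u ∈ Act, Sml lv β mu u) → Lg lv mu Act A₀ →
      List.replicate n false ∉ Act → f ∈ Ac (P.eval n) d → Loc (P.eval n) f →
      ∃ A, Agl n A₀ A ∧ Lg lv mu Act A ∧
        f A ≠ nw (d + 1) (rowOf A (List.replicate n false)) (rt n 0)

/-- A stored bit is read with a unique witness. -/
def UPStmt : Prop :=
  ∀ (U : List Bool → List Bool), PolyT.Poly U → ∀ (A L : Lang) (k : ℕ),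
    (∀ x, Lw (U x).length k (rowOf A (U x)) (L x)) →
    L ∈ RelUP (join A (gw A k)) ∧ (k = 0 → L ∈ RelUP A)

/-- The theorem. -/
def MainStmt : Prop :=
  ∃ A : Lang, RelNP A = RelUP A ∧
    (∀ k, RelSigma A (k + 1) = {L | ∃ B ∈ RelSigma A k, L ∈ RelUP (join A B)}) ∧
    (∀ k, ∃ L ∈ RelSigma A (k + 1), L ∉ RelSigma A k) ∧
    ∃ L ∈ RelPSPACE A, ∀ k, L ∉ RelSigma A k

end Pool.Agent.MP_a2d820_lc.h31w
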