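import Pool.Agent.MP_a2d820_lc.h31w.Spec
import Pool.Agent.MP_a2d820_lc.h31p.Step

/-!
Certificates of the targets, and the passage of the negative certificates to the next level.
-/

set_option autoImplicit false

namespace Pool.Agent.MP_a2d820_lc.h31w

open Finset Pool.Agent.MP_a2d820_lc.h69
open Pool.Agent.MP_a2d820_lc.h31u (Ct Live Chain)
open Pool.Agent.MP_a2d820_lc.h31p (Pr One Cert Fat Agr pt nw rowOf Loc Env)

theorem ta_all {V σ : Type} [DecidableEq V] {b y : Finset V} {e : ℕ} (T : Finset σ)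
    (f : σ → Finset V → Prop)
    (h : ∀ i ∈ T, ∃ D : Finset V, D.card ≤ e ∧ ∀ y', b ⊆ y' → Agr D y y' → f i y') :
    ∃ D : Finset V, D.card ≤ T.card * e ∧ ∀ y', b ⊆ y' → Agr D y y' → ∀ i ∈ T, f i y' := by
  choose! W w1 w2 using h
  exact ⟨T.biUnion W, card_biUnion_le_card_mul _ _ _ w1, fun y' h1 h2 i hi =>
    w2 i hi y' h1 fun v hv => h2 v (mem_biUnion.2 ⟨i, hi, hv⟩)⟩

theorem ta_iff {ι τ : Type} {Key : ι → Type} [DecidableEq ι] {X : Dat ι τ Key} (h : X.Ok) {n : ℕ}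
    {a : τ} (ha : X.tl a ≤ n) (κ : ∀ R, Key R) (y : Finset ι) :
    X.Gv n a ∅ X.N κ y ↔ X.A a y κ := by
  constructor
  · rintro ⟨c, ⟨c1, -, c2⟩, c3, c4⟩
    refine h.sound a c c1 y κ (fun l hl => ⟨c3 l hl, c2 l hl⟩) fun l hl hb => ?_
    exact c4 l hl (mem_union_right _ (mem_filter.2
      ⟨hb.2, ((h.small a c c1).2.2.2.2 l hl).trans_le ha⟩)) hb.1
  · intro hA
    obtain ⟨c, c1, c2, c3⟩ := h.compl a y κ hA
    refine ⟨c, ⟨c1, (h.small a c c1).2.2.2.1, fun l hl hF => (h.free y κ _ hF).1 (c2 l hl).2⟩,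
      fun l hl => (c2 l hl).1, fun l hl h1 h2 => c3 l hl ⟨h2, ?_⟩⟩
    rw [empty_union] at h1
    exact (mem_filter.1 h1).1

theorem tarS : TarStmt := by
  intro ι τ Key _ _ X h n β e κ b he hN hR
  have hD := h.pos
  have h1 : ∀ a, X.tl a ≤ n → Cert b univ (2 * X.D * e) fun y => X.A a y κ := by
    intro a ha
    refine ⟨fun y hy hA => ?_, one_up (h31p.Step.one_congr (hN a ∅ X.N (by simp) le_rfl)
      fun y _ => not_congr (ta_iff h ha κ y)) Subset.rfl (Nat.le_mul_of_pos_left _ (by omega))⟩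
    obtain ⟨c, c1, c2, c3⟩ := h.compl a y κ hA
    obtain ⟨s1, s2, -, -, s3⟩ := h.small a c c1
    obtain ⟨W, w1, w2⟩ := ta_all (b := b) (y := y) (e := e) c.2
      (fun l y' => ¬Bit (X.On y' κ) κ l) fun l hl => by
        by_cases hk : κ l.1 = l.2
        · obtain ⟨D, -, d1, d2⟩ := (hR l.1 ((s3 l hl).trans_le ha)).2 y hy
            fun hh => c3 l hl ⟨hk, hh⟩
          exact ⟨D, d1, fun y' a1 a2 hb => d2 y' a1 a2 hb.2⟩
        · exact ⟨∅, by simp, fun y' _ _ hb => hk hb.1⟩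
    refine ⟨c.1.image Sigma.fst ∪ W, subset_univ _, (card_union_le _ _).trans ?_,
      fun y' a1 a2 => h.sound a c c1 y' κ (fun l hl => ⟨(c2 l hl).1, fun hF => ?_⟩)
        (w2 y' a1 fun v hv => a2 v (mem_union_right _ hv))⟩
    · have b1 : (c.1.image Sigma.fst).card ≤ X.D := card_image_le.trans s1
      have b2 := w1.trans (Nat.mul_le_mul_right e s2)
      have b3 : X.D ≤ X.D * e := Nat.le_mul_of_pos_right _ he
      rw [mul_assoc]
      omega
    · exact (a2 _ (mem_union_left _ (mem_image_of_mem _ hl))).2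
        ((h.free y κ _ hF).1 (c2 l hl).2)
  refine ⟨h1, fun R hl => ?_⟩
  by_cases hF : R ∈ X.Fr
  · have b1 : ({R} : Finset ι).card ≤ 2 * X.D * e := by
      rw [card_singleton]
      exact Nat.mul_pos (by omega) he
    exact ⟨fun y _ hy => ⟨{R}, subset_univ _, b1, fun y' _ a2 => (h.free y' κ R hF).2
        ((a2 R (mem_singleton_self R)).2 ((h.free y κ R hF).1 hy))⟩,
      fun y _ hy => ⟨{R}, subset_univ _, b1, fun y' _ a2 hh => hy ((h.free y κ R hF).2
        ((a2 R (mem_singleton_self R)).1 ((h.free y' κ R hF).1 hh)))⟩⟩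
  · obtain ⟨a, a1, a2⟩ := h.reg R hF
    exact h31p.Step.cert_congr (h1 a (by omega)) fun y _ => (a2 y κ).symm

theorem nextS : NextStmt := by
  intro ι τ Key _ _ X h n β β' e r J κ b hN hR hβ hC a B θ hB hθ y hy hG
  have a4 : ∀ c, Live (X.Cy a θ y) κ (B ∪ X.Lo n κ y) c →
      ∃ l ∈ c.2, κ l.1 = l.2 ∧ l.1 ∈ X.Cu n κ y := by
    intro c hc
    by_contra a5
    push Not at a5
    refine hG ⟨c, hc.1, hc.2.1, fun l hl a6 a7 => ?_⟩
    rcases mem_union.1 a6 with a6 | a6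
    · exact hc.2.2 l hl (mem_union_left _ a6) a7
    · obtain ⟨a9, a8⟩ := mem_filter.1 a6
      rcases (Nat.lt_succ_iff.1 a8).lt_or_eq with a8 | a8
      · exact hc.2.2 l hl (mem_union_right _ (mem_filter.2 ⟨a9, a8⟩)) a7
      · exact a5 l hl a7 (mem_filter.2 ⟨a9, a8⟩)
  rcases h31u.exists_chain (rk := X.rk) (D := X.D) (fun c hc => (h.small a c hc.1).1) κ J _ a4 with
    ⟨F, b1, b2, b3⟩ | b1
  · obtain ⟨D, -, d1, d2⟩ := hN a (B ∪ F) θ ((card_union_le _ _).trans (by omega)) hθ y hy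
      fun ⟨c, hc⟩ => b3 c (by rwa [union_right_comm])
    obtain ⟨W, w1, w2⟩ := ta_all (b := b) (y := y) (e := r) F (fun R y' => R ∈ X.On y' κ)
      fun R hF => by
        obtain ⟨c1, c2⟩ := mem_filter.1 (b1 hF)
        obtain ⟨D, -, d⟩ := (hR R (by omega)).1 y hy c1
        exact ⟨D, d⟩
    refine ⟨D ∪ W, subset_univ _, (card_union_le _ _).trans
      (Nat.add_le_add d1 (w1.trans (Nat.mul_le_mul_right r b2))), fun y' a1 a2 ⟨c, hc⟩ =>
        d2 y' a1 (fun v hv => a2 v (mem_union_left _ hv)) ⟨c, hc.anti fun R hR' => ?_⟩⟩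
    rcases mem_union.1 hR' with c1 | c1
    · rcases mem_union.1 c1 with c2 | c2
      · exact mem_union_left _ c2
      · exact mem_union_right _ (mem_filter.2
          ⟨w2 y' a1 (fun v hv => a2 v (mem_union_right _ hv)) R c2,
            (mem_filter.1 (b1 c2)).2.le.trans_lt (Nat.lt_succ_self n)⟩)
    · exact mem_union_right _ (mem_filter.2
        ⟨(mem_filter.1 c1).1, (mem_filter.1 c1).2.trans (Nat.lt_succ_self n)⟩)
  · exact (hC a B θ y hB hθ hy b1).elim

end Pool.Agent.MP_a2d820_lc.h31w
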